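import Mathlib

/-! # A divisibility lemma for roots of unity of two-power order -/

set_option autoImplicit false

namespace Pool.Agent.R803.CM

theorem one_sub_pow {R : Type*} [CommRing R] (α : R) (s : ℕ) :
    ∃ G H : R, 1 - α ^ s = (1 - α) * G ∧ G = s + (1 - α) * H := by
  induction s with
  | zero => exact ⟨0, 0, by simp, by simp⟩
  | succ s ih =>
    obtain ⟨G, H, h1, h2⟩ := ih
    obtain ⟨G', hG'⟩ : ∃ G', 1 - α ^ s = (1 - α) * G' := ⟨G, h1⟩
    refine ⟨G + α ^ s, H - G', ?_, ?_⟩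
    · rw [pow_succ]
      linear_combination h1
    · push_cast
      linear_combination h2 - hG'

theorem sq_dvd_two {R : Type*} [CommRing R] [IsDomain R] (α : R) (k : ℕ)
    (hα : α ^ (2 ^ k) = 1) (hα2 : α ^ 2 ≠ 1) : ∃ G : R, 2 = (1 - α) ^ 2 * G := by
  classical
  have hex : ∃ j, α ^ (2 ^ j) = 1 := ⟨k, hα⟩
  set j := Nat.find hex with hj
  have hj1 : α ^ (2 ^ j) = 1 := Nat.find_spec hex
  have hjm : ∀ i < j, α ^ (2 ^ i) ≠ 1 := fun i hi => Nat.find_min hex hi
  have hj2 : 2 ≤ j := by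
    by_contra hcon
    have h1 : α ^ 2 = 1 := by
      rcases (by omega : j = 0 ∨ j = 1) with h | h
      · rw [h] at hj1
        have : α = 1 := by simpa using hj1
        rw [this, one_pow]
      · rw [h] at hj1
        simpa using hj1
    exact hα2 h1
  set i0 := α ^ (2 ^ (j - 2)) with hi0
  have e1 : i0 ^ 2 = -1 := by
    have h1 : (i0 ^ 2) * (i0 ^ 2) = 1 := by
      rw [hi0, ← pow_mul, ← pow_add]
      have : 2 ^ (j - 2) * 2 + 2 ^ (j - 2) * 2 = 2 ^ j := by
        obtain ⟨l, hl⟩ : ∃ l, j = l + 2 := ⟨j - 2, by omega⟩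
        rw [hl, Nat.add_sub_cancel]
        ring
      rw [this]
      exact hj1
    rcases mul_self_eq_one_iff.1 h1 with h2 | h2
    · exfalso
      refine hjm (j - 1) (by omega) ?_
      rw [hi0, ← pow_mul] at h2
      have : 2 ^ (j - 1) = 2 ^ (j - 2) * 2 := by
        rw [← pow_succ]
        congr 1
        omega
      rw [this]
      exact h2
    · exact h2
  obtain ⟨G, -, hG, -⟩ := one_sub_pow α (2 ^ (j - 2))
  refine ⟨G ^ 2 * i0, ?_⟩
  rw [← hi0] at hG
  have h3 : (1 - i0) ^ 2 * i0 = 2 := by linear_combination (i0 - 2) * e1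
  rw [← mul_assoc, ← mul_pow, ← hG, h3]

theorem ring_lemma {R : Type*} [CommRing R] [IsDomain R] (h2 : ¬ IsUnit (2 : R)) (α x y : R)
    (hx : IsUnit x) (m q : R) (k s : ℕ) (hα : α ^ (2 ^ k) = 1) (hα2 : α ^ 2 ≠ 1)
    (e1 : 1 + x + y = 2 * m) (e2 : (1 - α) * x + (1 - α ^ s) * y = 2 * q) : False := by
  obtain ⟨G1, hG1⟩ := sq_dvd_two α k hα hα2
  obtain ⟨G, H, hG, hH⟩ := one_sub_pow α s
  have hα1 : 1 - α ≠ 0 := by
    intro h0
    apply hα2
    have : α = 1 := by linear_combination -h0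
    rw [this, one_pow]
  have e3 : x + G * y = (1 - α) * (G1 * q) := by
    apply mul_left_cancel₀ hα1
    rw [hG] at e2
    linear_combination e2 + q * hG1
  -- `1 - α` is a unit
  have hu : IsUnit (1 - α) := by
    rcases Nat.even_or_odd' s with ⟨t, ht | ht⟩
    · have h4 : x = (1 - α) * (G1 * q - H * y - (1 - α) * G1 * t * y) := by
        rw [hH, ht] at e3
        push_cast at e3
        linear_combination e3 - (t * y) * hG1
      exact isUnit_of_mul_isUnit_left (h4 ▸ hx)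
    · have h4 : 1 = (1 - α) * ((1 - α) * G1 * m - (G1 * q - H * y - (1 - α) * G1 * t * y)) := by
        rw [hH, ht] at e3
        push_cast at e3
        linear_combination e1 - e3 + (m + t * y) * hG1
      exact IsUnit.of_mul_eq_one _ h4.symm
  apply h2
  have h5 : ∀ i : ℕ, ∃ w, (1 - α) ^ (2 ^ i) = 1 - α ^ (2 ^ i) + 2 * w := by
    intro i
    induction i with
    | zero => exact ⟨0, by simp⟩
    | succ i ih =>
      obtain ⟨w, hw⟩ := ih
      refine ⟨2 * w * (1 - α ^ (2 ^ i)) + 2 * w ^ 2 - α ^ (2 ^ i) + (α ^ (2 ^ i)) ^ 2, ?_⟩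
      rw [pow_succ, pow_mul, hw, pow_mul]
      ring
  obtain ⟨w, hw⟩ := h5 k
  rw [hα, sub_self, zero_add] at hw
  exact isUnit_of_mul_isUnit_left (hw ▸ hu.pow _)

end Pool.Agent.R803.CM
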