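import Pool.Agent.W7.FH.Gm
import Pool.Agent.W7.FH.Qd
import Pool.Agent.R803.CM0

/-! # Fermat's equation over CM fields -/

set_option autoImplicit false

namespace Pool.Agent.R803.CM

open NumberField IsDedekindDomain Height Pool.Agent.W7.FH NumberField.IsCMField

section general

variable {K : Type} [Field K] [NumberField K]

/-- an element with all finite absolute values equal to one is a unit -/
theorem exists_unit (x : K) (hx0 : x ≠ 0) (hx : ∀ v : FinitePlace K, v x = 1) :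
    ∃ u : (𝓞 K)ˣ, algebraMap (𝓞 K) K (u : 𝓞 K) = x := by
  have h1 : IsIntegral ℤ x := isIntegral_of_le x fun v => (hx v).le
  have h2 : IsIntegral ℤ x⁻¹ := isIntegral_of_le x⁻¹ fun v => by rw [map_inv₀, hx v, inv_one]
  refine ⟨⟨⟨x, h1⟩, ⟨x⁻¹, h2⟩, ?_, ?_⟩, rfl⟩
  · apply RingOfIntegers.coe_injective
    exact mul_inv_cancel₀ hx0
  · apply RingOfIntegers.coe_injective
    exact inv_mul_cancel₀ hx0

theorem inj_alg : Function.Injective (algebraMap (𝓞 K) K) := RingOfIntegers.coe_injective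

theorem torsion_pow {k : ℕ} (htor : Units.torsionOrder K = 2 ^ k) (ζ : Units.torsion K) :
    ζ ^ (2 ^ k) = 1 := by
  rw [← htor]
  exact pow_card_eq_one'

/-- an `n`-th root of unity, `n` odd, is trivial if the roots of unity have two-power order -/
theorem root_eq_one {k : ℕ} (htor : Units.torsionOrder K = 2 ^ k) {n : ℕ} (hn : Odd n) (ξ : K)
    (h : ξ ^ n = 1) : ξ = 1 := by
  have hn0 : n ≠ 0 := hn.pos.ne'
  have hξ0 : ξ ≠ 0 := by
    rintro rfl
    rw [zero_pow hn0] at h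
    exact zero_ne_one h
  obtain ⟨u, hu⟩ := exists_unit ξ hξ0 (fun v => by
    have h1 : v ξ ^ n = 1 := by rw [← map_pow, h, map_one]
    exact (pow_eq_one_iff_of_nonneg (apply_nonneg v ξ) hn0).1 h1)
  have hun : u ^ n = 1 := by
    apply Units.ext
    apply inj_alg
    rw [Units.val_pow_eq_pow_val, map_pow, hu, h, Units.val_one, map_one]
  have hmem : u ∈ Units.torsion K := by
    rw [Units.torsion, CommGroup.mem_torsion]
    exact isOfFinOrder_iff_pow_eq_one.2 ⟨n, hn.pos, hun⟩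
  have h2 := torsion_pow htor ⟨u, hmem⟩
  have h3 : u ^ (2 ^ k) = 1 := congrArg Subtype.val h2
  have h4 : u = 1 := by
    have h5 := pow_gcd_eq_one.2 ⟨hun, h3⟩
    rwa [Nat.Coprime.gcd_eq_one (Nat.Coprime.pow_right k (Nat.coprime_two_right.2 hn)), pow_one] at h5
  rw [← hu, h4]
  simp

end general

variable {K : Type} [Field K] [NumberField K] [IsCMField K]

theorem two_not_unit : ¬ IsUnit (2 : 𝓞 K) := by
  intro h
  obtain ⟨w, hw⟩ := h.exists_right_inv
  have h1 : ((1 : ℤ) : 𝓞 K) = ((2 : ℕ) : 𝓞 K) * w := by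
    push_cast
    exact hw.symm
  have h2 := int_dvd 1 w h1
  norm_num at h2

/-- the quotient of a conjugate unit by the unit is a root of unity -/
theorem exists_ratio {k : ℕ} (htor : Units.torsionOrder K = 2 ^ k) (u : (𝓞 K)ˣ) :
    ∃ α : 𝓞 K, α ^ (2 ^ k) = 1 ∧
      ((unitsComplexConj K u : (𝓞 K)ˣ) : 𝓞 K) = α * (u : 𝓞 K) := by
  have h2 := torsion_pow htor (unitsMulComplexConjInv K u)
  have h3 : ((unitsMulComplexConjInv K u : (𝓞 K)ˣ)) ^ (2 ^ k) = 1 := congrArg Subtype.val h2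
  rw [unitsMulComplexConjInv_apply] at h3
  refine ⟨((unitsComplexConj K u * u⁻¹ : (𝓞 K)ˣ) : 𝓞 K), ?_, ?_⟩
  · rw [← Units.val_pow_eq_pow_val]
    have h4 : (unitsComplexConj K u * u⁻¹) ^ (2 ^ k) = 1 := by
      have h5 : unitsComplexConj K u * u⁻¹ = (u * (unitsComplexConj K u)⁻¹)⁻¹ := by
        rw [mul_inv, inv_inv, mul_comm]
      rw [h5, inv_pow, h3, inv_one]
    rw [h4, Units.val_one]
  · rw [Units.val_mul, mul_assoc, Units.inv_mul, mul_one]

/-- among two roots of unity of two-power order one is a power of the other one -/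
theorem pow_or_pow {k : ℕ} (α β : 𝓞 K) (hα : α ^ (2 ^ k) = 1) (hβ : β ^ (2 ^ k) = 1) :
    (∃ s, β = α ^ s) ∨ (∃ s, α = β ^ s) := by
  obtain ⟨i, -, hi⟩ := (Nat.dvd_prime_pow Nat.prime_two).1 (orderOf_dvd_of_pow_eq_one hα)
  obtain ⟨j, -, hj⟩ := (Nat.dvd_prime_pow Nat.prime_two).1 (orderOf_dvd_of_pow_eq_one hβ)
  have key : ∀ (α β : 𝓞 K) (i j : ℕ), orderOf α = 2 ^ i → orderOf β = 2 ^ j → j ≤ i →
      ∃ s, β = α ^ s := by
    intro α β i j hi hj hij
    have h1 : IsPrimitiveRoot α (2 ^ i) := hi ▸ IsPrimitiveRoot.orderOf α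
    have h2 : β ^ (2 ^ i) = 1 := by
      apply orderOf_dvd_iff_pow_eq_one.1
      rw [hj]
      exact Nat.pow_dvd_pow 2 hij
    obtain ⟨s, -, hs⟩ := h1.eq_pow_of_pow_eq_one h2
    exact ⟨s, hs.symm⟩
  rcases Nat.le_total j i with h | h
  · exact Or.inl (key α β i j hi hj h)
  · exact Or.inr (key β α j i hj hi h)

/-- complex conjugation changes the units `x`, `y` with `1 + x + y` even at most by a sign -/
theorem conj_pm {k : ℕ} (htor : Units.torsionOrder K = 2 ^ k) (x y s : K) (hx0 : x ≠ 0)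
    (hy0 : y ≠ 0) (hx : ∀ v : FinitePlace K, v x = 1) (hy : ∀ v : FinitePlace K, v y = 1)
    (hs : ∀ v : FinitePlace K, v s ≤ 1) (hsum : 1 + x + y = 2 * s) :
    (complexConj K x = x ∨ complexConj K x = -x) ∧
      (complexConj K y = y ∨ complexConj K y = -y) := by
  obtain ⟨u, hu⟩ := exists_unit x hx0 hx
  obtain ⟨w, hw⟩ := exists_unit y hy0 hy
  obtain ⟨t, ht⟩ : ∃ t : 𝓞 K, algebraMap (𝓞 K) K t = s := ⟨⟨s, isIntegral_of_le s hs⟩, rfl⟩
  obtain ⟨α, hα, hαu⟩ := exists_ratio htor u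
  obtain ⟨β, hβ, hβw⟩ := exists_ratio htor w
  have e1 : 1 + (u : 𝓞 K) + (w : 𝓞 K) = 2 * t := by
    apply inj_alg
    rw [map_add, map_add, map_one, map_mul, map_ofNat, hu, hw, ht]
    exact hsum
  have e2 : 1 + α * (u : 𝓞 K) + β * (w : 𝓞 K) = 2 * ringOfIntegersComplexConj K t := by
    have h1 := congrArg (ringOfIntegersComplexConj K) e1
    rw [map_add, map_add, map_one, map_mul, map_ofNat] at h1
    rw [← hαu, ← hβw]
    exact h1
  have e3 : (1 - α) * (u : 𝓞 K) + (1 - β) * (w : 𝓞 K) =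
      2 * (t - ringOfIntegersComplexConj K t) := by
    linear_combination e1 - e2
  have hsq : α ^ 2 = 1 ∧ β ^ 2 = 1 := by
    rcases pow_or_pow α β hα hβ with ⟨r, hr⟩ | ⟨r, hr⟩
    · have h1 : α ^ 2 = 1 := by
        by_contra h1
        rw [hr] at e3
        exact ring_lemma two_not_unit α u w u.isUnit t (t - ringOfIntegersComplexConj K t) k r hα h1
          e1 e3
      refine ⟨h1, ?_⟩
      rw [hr, ← pow_mul, mul_comm, pow_mul, h1, one_pow]
    · have h1 : β ^ 2 = 1 := by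
        by_contra h1
        rw [hr] at e3
        exact ring_lemma two_not_unit β w u w.isUnit t (t - ringOfIntegersComplexConj K t) k r hβ h1
          (by linear_combination e1) (by linear_combination e3)
      refine ⟨?_, h1⟩
      rw [hr, ← pow_mul, mul_comm, pow_mul, h1, one_pow]
  have hcx : complexConj K x = algebraMap (𝓞 K) K α * x := by
    rw [← hu, ← map_mul, ← hαu]
    rfl
  have hcy : complexConj K y = algebraMap (𝓞 K) K β * y := by
    rw [← hw, ← map_mul, ← hβw]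
    rfl
  constructor
  · rcases mul_self_eq_one_iff.1 ((sq α).symm.trans hsq.1) with h1 | h1
    · left; rw [hcx, h1, map_one, one_mul]
    · right; rw [hcx, h1, map_neg, map_one, neg_one_mul]
  · rcases mul_self_eq_one_iff.1 ((sq β).symm.trans hsq.2) with h1 | h1
    · left; rw [hcy, h1, map_one, one_mul]
    · right; rw [hcy, h1, map_neg, map_one, neg_one_mul]

/-- the case of a unit with `x̄ = - x` does not occur -/
theorem imag_false {k : ℕ} (htor : Units.torsionOrder K = 2 ^ k) {n : ℕ} (hn : Odd n)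
    (a b c : K) (hc : c ≠ 0) (hB : b + c ≠ 0) (hA : a + b ≠ 0)
    (h : a ^ n + b ^ n + c ^ n = 0) (hv : ∀ v : FinitePlace K, v (a + b) = v (b + c))
    (hx : complexConj K ((a + b) / (b + c)) = -((a + b) / (b + c)))
    (hy : complexConj K ((c + a) / (b + c)) = (c + a) / (b + c)) : False := by
  obtain ⟨x, hxd⟩ : ∃ x, x = (a + b) / (b + c) := ⟨_, rfl⟩
  obtain ⟨y, hyd⟩ : ∃ y, y = (c + a) / (b + c) := ⟨_, rfl⟩
  rw [← hxd] at hx
  rw [← hyd] at hy
  have ea : (b + c) * (x + y - 1) = 2 * a := by rw [hxd, hyd]; field_simp; ring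
  have eb : (b + c) * (x + 1 - y) = 2 * b := by rw [hxd, hyd]; field_simp; ring
  have ec : (b + c) * (1 + y - x) = 2 * c := by rw [hxd, hyd]; field_simp; ring
  have hx0 : x ≠ 0 := by rw [hxd]; exact div_ne_zero hA hB
  have hc0 : 1 + y - x ≠ 0 := by
    intro h0
    rw [h0, mul_zero] at ec
    exact hc ((mul_eq_zero.1 ec.symm).resolve_left two_ne_zero)
  have e1 : (x + y - 1) ^ n + (x + 1 - y) ^ n + (1 + y - x) ^ n = 0 := by
    have h1 : (b + c) ^ n * ((x + y - 1) ^ n + (x + 1 - y) ^ n + (1 + y - x) ^ n) = 0 := by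
      rw [mul_add, mul_add, ← mul_pow, ← mul_pow, ← mul_pow, ea, eb, ec, mul_pow, mul_pow, mul_pow,
        ← mul_add, ← mul_add, h, mul_zero]
    exact (mul_eq_zero.1 h1).resolve_left (pow_ne_zero _ hB)
  have e2 : (-x + y - 1) ^ n + (-x + 1 - y) ^ n + (1 + y + x) ^ n = 0 := by
    have h1 := congrArg (complexConj K) e1
    simp only [map_add, map_sub, map_pow, map_one, map_zero, hx, hy] at h1
    rw [sub_neg_eq_add] at h1
    exact h1
  have e3 : (1 + y + x) ^ n = -(1 + y - x) ^ n := by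
    have h1 : (-x + y - 1) ^ n = -(x + 1 - y) ^ n := by
      rw [← hn.neg_pow]
      congr 1
      ring
    have h2 : (-x + 1 - y) ^ n = -(x + y - 1) ^ n := by
      rw [← hn.neg_pow]
      congr 1
      ring
    rw [h1, h2] at e2
    linear_combination e2 + e1
  have e4 : (-((1 + y + x) / (1 + y - x))) ^ n = 1 := by
    rw [hn.neg_pow, div_pow, e3, neg_div, div_self (pow_ne_zero _ hc0), neg_neg]
  have e5 := root_eq_one htor hn _ e4
  have e6 : y = -1 := by
    have h1 : -(1 + y + x) = 1 + y - x := by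
      rw [← neg_div, div_eq_one_iff_eq hc0] at e5
      exact e5
    have h2 : 2 * (y + 1) = 0 := by linear_combination -h1
    have h3 := (mul_eq_zero.1 h2).resolve_left two_ne_zero
    linear_combination h3
  have e7 : (x - 2) ^ n + (x + 2) ^ n = x ^ n := by
    rw [e6] at e1
    have h1 : (1 + -1 - x) ^ n = -x ^ n := by
      rw [← hn.neg_pow]
      congr 1
      ring
    rw [h1] at e1
    have h2 : x + -1 - 1 = x - 2 := by ring
    have h3 : x + 1 - -1 = x + 2 := by ring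
    rw [h2, h3] at e1
    linear_combination e1
  -- reduction modulo two
  obtain ⟨u, hu⟩ := exists_unit x hx0 (fun v => by
    rw [hxd, map_div₀, hv v, div_self]
    exact (FinitePlace.pos_iff.mpr hB).ne')
  have e8 : ((u : 𝓞 K) - 2) ^ n + ((u : 𝓞 K) + 2) ^ n = (u : 𝓞 K) ^ n := by
    apply inj_alg
    rw [map_add, map_pow, map_pow, map_pow, map_sub, map_add, hu, map_ofNat]
    exact e7
  have d1 : (2 : 𝓞 K) ∣ ((u : 𝓞 K) - 2) ^ n - (u : 𝓞 K) ^ n := by
    refine dvd_trans ?_ (sub_dvd_pow_sub_pow _ _ n)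
    exact ⟨-1, by ring⟩
  have d2 : (2 : 𝓞 K) ∣ ((u : 𝓞 K) + 2) ^ n - (u : 𝓞 K) ^ n := by
    refine dvd_trans ?_ (sub_dvd_pow_sub_pow _ _ n)
    exact ⟨1, by ring⟩
  have d3 : (2 : 𝓞 K) ∣ (u : 𝓞 K) ^ n := by
    obtain ⟨w1, hw1⟩ := d1
    obtain ⟨w2, hw2⟩ := d2
    refine ⟨-(w1 + w2 + (u : 𝓞 K) ^ n) + (u : 𝓞 K) ^ n, ?_⟩
    linear_combination -hw1 - hw2 + e8
  obtain ⟨w, hw⟩ := d3
  have d4 : ((1 : ℤ) : 𝓞 K) = ((2 : ℕ) : 𝓞 K) * (w * ((u⁻¹ : (𝓞 K)ˣ) : 𝓞 K) ^ n) := by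
    have h1 : (u : 𝓞 K) ^ n * ((u⁻¹ : (𝓞 K)ˣ) : 𝓞 K) ^ n = 1 := by
      rw [← mul_pow, Units.mul_inv, one_pow]
    push_cast
    rw [← mul_assoc, ← hw, h1]
  have d5 := int_dvd 1 _ d4
  norm_num at d5

end Pool.Agent.R803.CM
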