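import Pool.Agent.R803.CM1

/-! # Small solutions over CM fields are real -/

set_option autoImplicit false

namespace Pool.Agent.R803.CM

open NumberField IsDedekindDomain Height Pool.Agent.W7.FH NumberField.IsCMField

variable {K : Type} [Field K] [NumberField K] [IsCMField K]

/-- if all sums are locally maximal then the solution is real up to a factor -/
theorem real_of_unit {k : ℕ} (htor : Units.torsionOrder K = 2 ^ k) {n : ℕ} (hn : Odd n)
    {a b c : K} (ha : a ≠ 0) (hb : b ≠ 0) (hc : c ≠ 0) (h : a ^ n + b ^ n + c ^ n = 0)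
    (hv : ∀ v : FinitePlace K,
      v (a + b) = mx v a b c ∧ v (b + c) = mx v a b c ∧ v (c + a) = mx v a b c) :
    ∃ t : K, t ≠ 0 ∧ ∃ a' b' c' : maximalRealSubfield K,
      a = t * (a' : K) ∧ b = t * (b' : K) ∧ c = t * (c' : K) := by
  have hA : a + b ≠ 0 := add_ne_zero_of_fermat hn hc h
  have hB : b + c ≠ 0 := add_ne_zero_of_fermat hn ha (by linear_combination h)
  have hC : c + a ≠ 0 := add_ne_zero_of_fermat hn hb (by linear_combination h)
  have vpos : ∀ (v : FinitePlace K) (z : K), z ≠ 0 → v z ≠ 0 := fun v z hz =>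
    (FinitePlace.pos_iff.mpr hz).ne'
  obtain ⟨hx, hy⟩ := conj_pm htor ((a + b) / (b + c)) ((c + a) / (b + c))
    ((a + b + c) / (b + c)) (div_ne_zero hA hB) (div_ne_zero hC hB) (fun v => by
      rw [map_div₀, (hv v).1, (hv v).2.1, div_self]
      rw [← (hv v).2.1]
      exact vpos v _ hB) (fun v => by
      rw [map_div₀, (hv v).2.2, (hv v).2.1, div_self]
      rw [← (hv v).2.1]
      exact vpos v _ hB) (fun v => by
      have h1 : 0 < v (b + c) := FinitePlace.pos_iff.mpr hB
      rw [map_div₀, div_le_one h1, (hv v).2.1]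
      refine (FinitePlace.add_le v (a + b) c).trans (max_le ?_ (le_max_right _ _))
      rw [(hv v).1]) (by
      field_simp
      ring)
  rcases hx with hx | hx <;> rcases hy with hy | hy
  · refine ⟨(b + c) / 2, div_ne_zero hB two_ne_zero,
      ⟨(a + b) / (b + c) + (c + a) / (b + c) - 1, ?_⟩,
      ⟨(a + b) / (b + c) + 1 - (c + a) / (b + c), ?_⟩,
      ⟨1 + (c + a) / (b + c) - (a + b) / (b + c), ?_⟩, ?_, ?_, ?_⟩
    · rw [← complexConj_eq_self_iff, map_sub, map_add, hx, hy, map_one]
    · rw [← complexConj_eq_self_iff, map_sub, map_add, hx, hy, map_one]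
    · rw [← complexConj_eq_self_iff, map_sub, map_add, hx, hy, map_one]
    · show a = (b + c) / 2 * ((a + b) / (b + c) + (c + a) / (b + c) - 1)
      field_simp
      ring
    · show b = (b + c) / 2 * ((a + b) / (b + c) + 1 - (c + a) / (b + c))
      field_simp
      ring
    · show c = (b + c) / 2 * (1 + (c + a) / (b + c) - (a + b) / (b + c))
      field_simp
      ring
  · -- `x` real, `y` imaginary
    exfalso
    refine imag_false htor hn a c b hb (by rwa [add_comm]) (by rwa [add_comm])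
      (by linear_combination h) (fun v => ?_) ?_ ?_
    · rw [add_comm a c, add_comm c b, (hv v).2.2, (hv v).2.1]
    · rw [add_comm a c, add_comm c b]
      exact hy
    · rw [add_comm b a, add_comm c b]
      exact hx
  · -- `x` imaginary, `y` real
    exfalso
    exact imag_false htor hn a b c hc hB hA h (fun v => by rw [(hv v).1, (hv v).2.1]) hx hy
  · -- both imaginary
    exfalso
    refine imag_false htor hn c b a ha (by rwa [add_comm]) (by rwa [add_comm])
      (by linear_combination h) (fun v => ?_) ?_ ?_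
    · rw [add_comm c b, add_comm b a, (hv v).2.1, (hv v).1]
    · have e : (c + b) / (b + a) = ((a + b) / (b + c))⁻¹ := by
        rw [inv_div, add_comm c b, add_comm b a]
      rw [e, map_inv₀, hx, inv_neg]
    · have e : (a + c) / (b + a) = ((c + a) / (b + c)) * ((a + b) / (b + c))⁻¹ := by
        rw [inv_div, add_comm a c, add_comm b a]
        field_simp
      rw [e, map_mul, map_inv₀, hx, hy, inv_neg, neg_mul_neg]

theorem main {k : ℕ} (htor : Units.torsionOrder K = 2 ^ k) {n : ℕ} (hn : 2 ≤ n)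
    (hp : ∀ p : ℕ, p.Prime → p ∣ n → 5 ≤ p ∧ 2 * Module.finrank ℚ K ≤ p)
    {a b c : K} (ha : a ≠ 0) (hb : b ≠ 0) (hc : c ≠ 0) (h : a ^ n + b ^ n + c ^ n = 0) :
    (2 : ℝ) ^ n ≤ 2 ^ Module.finrank ℚ K * mulHeight ![a, b, c] ∨
      ∃ t : K, t ≠ 0 ∧ ∃ a' b' c' : maximalRealSubfield K,
        a = t * (a' : K) ∧ b = t * (b' : K) ∧ c = t * (c' : K) := by
  by_contra hcon0
  push Not at hcon0
  obtain ⟨hcon, hno⟩ := hcon0
  have hd : 0 < Module.finrank ℚ K := Module.finrank_pos
  have hm : ∀ p : ℕ, p.Prime → p ∣ n → Module.finrank ℚ K + 1 < p := by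
    intro p hpp hpn
    have := hp p hpp hpn
    omega
  have hmf : n.minFac.Prime := Nat.minFac_prime (by omega)
  have h5 := hp _ hmf (Nat.minFac_dvd n)
  have h1 := units_of_small hn hm ha hb hc h (Q := (2 : ℝ) ^ n) (by positivity) (fun w => by
      apply pow_le_pow_left₀ (by norm_num)
      have := one_lt_nrm w
      exact_mod_cast this) (by
      have := pow_bound (d := Module.finrank ℚ K) (l := n.minFac) (n := n) (by omega) h5.2 (by omega)
        (Nat.minFac_dvd n)
      exact_mod_cast this) hcon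
  have hodd : Odd n := odd_of_big hd hm
  obtain ⟨t, ht, a', b', c', h2, h3, h4⟩ := real_of_unit htor hodd ha hb hc h h1
  exact hno t ht a' b' c' h2 h3 h4

/-- a nonzero solution in the real subfield -/
theorem real_solution {n : ℕ} {a b c t : K} (ht : t ≠ 0) (a' b' c' : maximalRealSubfield K)
    (ha : a ≠ 0) (hb : b ≠ 0) (hc : c ≠ 0) (h : a ^ n + b ^ n + c ^ n = 0)
    (h1 : a = t * (a' : K)) (h2 : b = t * (b' : K)) (h3 : c = t * (c' : K)) :
    a' ≠ 0 ∧ b' ≠ 0 ∧ c' ≠ 0 ∧ a' ^ n + b' ^ n + c' ^ n = 0 := by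
  refine ⟨?_, ?_, ?_, ?_⟩
  · rintro rfl
    exact ha (by rw [h1]; simp)
  · rintro rfl
    exact hb (by rw [h2]; simp)
  · rintro rfl
    exact hc (by rw [h3]; simp)
  · apply Subtype.coe_injective
    push_cast
    have h4 : t ^ n * ((a' : K) ^ n + (b' : K) ^ n + (c' : K) ^ n) = 0 := by
      rw [mul_add, mul_add, ← mul_pow, ← mul_pow, ← mul_pow, ← h1, ← h2, ← h3, h]
    exact (mul_eq_zero.1 h4).resolve_left (pow_ne_zero _ ht)

theorem mainB {k : ℕ} (htor : Units.torsionOrder K = 2 ^ k) {p : ℕ} (hp : p.Prime)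
    (hpd : 4 * Module.finrank ℚ K ^ 2 ≤ p) (hd : ¬ (p : ℤ) ∣ discr K)
    {a b c : K} (ha : a ≠ 0) (hb : b ≠ 0) (hc : c ≠ 0) (h : a ^ p + b ^ p + c ^ p = 0) :
    ((p : ℝ) / 3) ^ Module.finrank ℚ K ≤ mulHeight ![a, b, c] := by
  have hdpos : 0 < Module.finrank ℚ K := Module.finrank_pos
  have hp4 : 4 ≤ p := by nlinarith
  have h5 : 5 ≤ p := by
    rcases Nat.lt_or_ge p 5 with h6 | h6
    · have : p = 4 := by omega
      subst this
      exact absurd hp (by norm_num)
    · exact h6
  have h2d : 2 * Module.finrank ℚ K ≤ p := by nlinarith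
  rcases main htor (by omega : 2 ≤ p) (fun q hq hqp => by
    rw [(Nat.prime_dvd_prime_iff_eq hq hp).mp hqp]
    exact ⟨h5, h2d⟩) ha hb hc h with h1 | ⟨t, ht, a', b', c', h1, h2, h3⟩
  · have e1 : (p : ℝ) ^ Module.finrank ℚ K ≤ 2 ^ p := by exact_mod_cast pow_le_two_pow hpd
    have e2 : ((p : ℝ) / 3) ^ Module.finrank ℚ K ≤ ((p : ℝ) / 2) ^ Module.finrank ℚ K := by
      apply pow_le_pow_left₀ (by positivity)
      have : (0 : ℝ) ≤ p := Nat.cast_nonneg p
      linarith
    refine e2.trans ?_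
    rw [div_pow, div_le_iff₀ (by positivity)]
    calc (p : ℝ) ^ Module.finrank ℚ K ≤ 2 ^ p := e1
      _ ≤ 2 ^ Module.finrank ℚ K * mulHeight ![a, b, c] := h1
      _ = mulHeight ![a, b, c] * 2 ^ Module.finrank ℚ K := mul_comm _ _
  · obtain ⟨g1, g2, g3, g4⟩ := real_solution ht a' b' c' ha hb hc h h1 h2 h3
    apply grunert_main hp h5 hpd hd ha hb hc h
    obtain ⟨w⟩ : Nonempty (InfinitePlace (maximalRealSubfield K)) := inferInstance
    have hs := sum_ne_zero_of_real hp.two_le (hp.odd_of_ne_two (by omega)) w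
      (IsTotallyReal.isReal w) g1 g2 g3 g4
    rw [h1, h2, h3, ← mul_add, ← mul_add]
    refine mul_ne_zero ht ?_
    intro h0
    apply hs
    apply Subtype.coe_injective
    push_cast
    exact h0

end Pool.Agent.R803.CM
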