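import Mathlib

/-! # The numbers `8 d_m ^ 2 + 1`, `d_m + b_m √8 = (3 + √8) ^ m` -/

set_option autoImplicit false

namespace Pool.Agent.R803.PV

/-- the pair `(d_m, b_m)` with `d_m + b_m √8 = (3 + √8) ^ m` -/
def db : ℕ → ℕ × ℕ
  | 0 => (1, 0)
  | m + 1 => (3 * (db m).1 + 8 * (db m).2, (db m).1 + 3 * (db m).2)

/-- `N_m = 8 d_m ^ 2 + 1` -/
def N (m : ℕ) : ℕ := 8 * (db m).1 ^ 2 + 1

theorem zpow_eq {R : Type*} [CommRing R] (s : R) (hs : s ^ 2 = 2) (m : ℕ) :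
    (3 + 2 * s) ^ m = ((db m).1 : R) + 2 * s * ((db m).2 : R) := by
  induction m with
  | zero => simp [db]
  | succ m ih =>
    rw [pow_succ, ih]
    simp only [db]
    push_cast
    linear_combination (4 * ((db m).2 : R)) * hs

theorem pell (m : ℕ) : (db m).1 ^ 2 = 8 * (db m).2 ^ 2 + 1 := by
  induction m with
  | zero => simp [db]
  | succ m ih =>
    simp only [db]
    nlinarith [ih]

theorem N_eq (m : ℕ) : N m = 64 * (db m).2 ^ 2 + 9 := by
  unfold N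
  rw [pell m]
  ring

theorem real_eq (m : ℕ) : ((db m).1 : ℝ) + ((db m).2 : ℝ) * √8 = (3 + √8) ^ m := by
  have h8 : √8 = 2 * √2 := by
    rw [show (8 : ℝ) = 2 ^ 2 * 2 by norm_num, Real.sqrt_mul (by norm_num), Real.sqrt_sq (by norm_num)]
  have h := zpow_eq (√2) (Real.sq_sqrt (by norm_num)) m
  rw [h8, h]
  ring

theorem N_odd (m : ℕ) : ¬ 2 ∣ N m := by
  unfold N
  omega

/-- `2` is a square modulo every prime `q ≠ 3` dividing some `N_m` -/
theorem two_sq (q : ℕ) [Fact q.Prime] (h3 : q ≠ 3) (m : ℕ) (h : q ∣ N m) :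
    ∃ s : ZMod q, s ^ 2 = 2 := by
  have hq3 : (3 : ZMod q) ≠ 0 := by
    intro h0
    have h1 : ((3 : ℕ) : ZMod q) = 0 := by exact_mod_cast h0
    rw [ZMod.natCast_eq_zero_iff] at h1
    exact h3 ((Nat.prime_dvd_prime_iff_eq Fact.out Nat.prime_three).1 h1)
  have e1 : (8 : ZMod q) * ((db m).1 : ZMod q) ^ 2 + 1 = 0 := by
    have h1 : ((N m : ℕ) : ZMod q) = 0 := (ZMod.natCast_eq_zero_iff _ _).2 h
    unfold N at h1
    push_cast at h1
    exact h1
  have e2 : (64 : ZMod q) * ((db m).2 : ZMod q) ^ 2 + 9 = 0 := by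
    have h1 : ((N m : ℕ) : ZMod q) = 0 := (ZMod.natCast_eq_zero_iff _ _).2 h
    rw [N_eq] at h1
    push_cast at h1
    exact h1
  refine ⟨32 * ((db m).1 : ZMod q) * ((db m).2 : ZMod q) / 3, ?_⟩
  rw [div_pow, div_eq_iff (pow_ne_zero 2 hq3)]
  linear_combination (128 * ((db m).2 : ZMod q) ^ 2) * e1 - 2 * e2

/-- for a prime `q ≠ 2, 3`, divisibility of `N_m` by `q` depends only on `m` modulo `q - 1` -/
theorem dvd_congr (q : ℕ) (hq : q.Prime) (h2 : q ≠ 2) (h3 : q ≠ 3) (m m' : ℕ)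
    (hm : m ≡ m' [MOD q - 1]) (h : q ∣ N m) : q ∣ N m' := by
  have : Fact q.Prime := ⟨hq⟩
  obtain ⟨s, hs⟩ := two_sq q h3 m h
  have hq2 : (2 : ZMod q) ≠ 0 := by
    intro h0
    have h1 : ((2 : ℕ) : ZMod q) = 0 := by exact_mod_cast h0
    rw [ZMod.natCast_eq_zero_iff] at h1
    exact h2 ((Nat.prime_dvd_prime_iff_eq Fact.out Nat.prime_two).1 h1)
  have hs' : (-s) ^ 2 = 2 := by rw [neg_sq, hs]
  have huv : (3 + 2 * s) * (3 + 2 * (-s)) = 1 := by linear_combination -4 * hs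
  have hu : (3 + 2 * s) ≠ 0 := left_ne_zero_of_mul_eq_one huv
  have hv : (3 + 2 * (-s)) ≠ 0 := right_ne_zero_of_mul_eq_one huv
  have key : ∀ u : ZMod q, u ≠ 0 → u ^ m = u ^ m' := by
    intro u hu0
    have h1 : u ^ (q - 1) = 1 := ZMod.pow_card_sub_one_eq_one hu0
    rw [← Nat.mod_add_div m (q - 1), ← Nat.mod_add_div m' (q - 1), pow_add, pow_add, pow_mul, pow_mul,
      h1, one_pow, one_pow, hm]
  have k1 := key _ hu
  have k2 := key _ hv
  rw [zpow_eq s hs, zpow_eq s hs] at k1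
  rw [zpow_eq (-s) hs', zpow_eq (-s) hs'] at k2
  have hd : ((db m).1 : ZMod q) = ((db m').1 : ZMod q) := by
    apply mul_left_cancel₀ hq2
    linear_combination k1 + k2
  rw [← ZMod.natCast_eq_zero_iff] at h ⊢
  unfold N at h ⊢
  push_cast at h ⊢
  rw [← hd]
  exact h

theorem N_three (m : ℕ) : N (m + 2) % 3 = N m % 3 := by
  unfold N
  have e : (db (m + 2)).1 = 17 * (db m).1 + 48 * (db m).2 := by
    simp only [db]
    ring
  rw [e]
  have : 8 * (17 * (db m).1 + 48 * (db m).2) ^ 2 + 1 =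
      3 * (768 * (db m).1 ^ 2 + 8 * (2 * 17 * (db m).1 * 16 * (db m).2 + 48 * 16 * (db m).2 ^ 2)) +
        (8 * (db m).1 ^ 2 + 1) := by ring
  rw [this]
  omega

theorem N_three' (m i : ℕ) : N (m + 2 * i) % 3 = N m % 3 := by
  induction i with
  | zero => rfl
  | succ i ih =>
    rw [show m + 2 * (i + 1) = (m + 2 * i) + 2 by ring, N_three, ih]

theorem not_three (m : ℕ) (hm : Odd m) : ¬ 3 ∣ N m := by
  obtain ⟨k, rfl⟩ := hm
  have h := N_three' 1 k
  have h1 : N 1 % 3 = 1 := by decide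
  rw [add_comm] at h
  omega

theorem three_congr (m m' : ℕ) (hm : m ≡ m' [MOD 2]) (h : 3 ∣ N m) : 3 ∣ N m' := by
  have key : ∀ k : ℕ, N k % 3 = N (k % 2) % 3 := by
    intro k
    conv_lhs => rw [← Nat.mod_add_div k 2]
    exact N_three' _ _
  have h1 := key m
  have h2 := key m'
  rw [hm] at h1
  omega

end Pool.Agent.R803.PV
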