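import Pool.Agent.R803.PellVals

/-! # Periodicity, Fermat divisors and counting -/

set_option autoImplicit false
open Finset

namespace Pool.Agent.R803.PV

/-- the step of the recursion as a permutation -/
def stepPerm (M : ℕ) : Equiv.Perm (ZMod M × ZMod M) where
  toFun p := (3 * p.1 + 8 * p.2, p.1 + 3 * p.2)
  invFun p := (3 * p.1 - 8 * p.2, - p.1 + 3 * p.2)
  left_inv p := by ext <;> simp <;> ring
  right_inv p := by ext <;> simp <;> ring

theorem db_step (M m : ℕ) : ((stepPerm M) ^ m) (1, 0) = (((db m).1 : ZMod M), ((db m).2 : ZMod M)) := by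
  induction m with
  | zero => simp [db]
  | succ m ih =>
    rw [pow_succ', Equiv.Perm.mul_apply, ih]
    simp [stepPerm, db]

/-- the numbers `N_m` are periodic modulo every `M` -/
theorem period (M : ℕ) (hM : 0 < M) : ∃ P : ℕ, 0 < P ∧ ∀ m m' : ℕ, m ≡ m' [MOD P] →
    N m ≡ N m' [MOD M] := by
  have : NeZero M := ⟨hM.ne'⟩
  refine ⟨orderOf (stepPerm M), orderOf_pos _, fun m m' hm => ?_⟩
  have h1 : (stepPerm M) ^ m = (stepPerm M) ^ m' := pow_eq_pow_iff_modEq.2 hm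
  have h2 := db_step M m
  rw [h1, db_step M m'] at h2
  have h3 : ((db m').1 : ZMod M) = ((db m).1 : ZMod M) := congrArg Prod.fst h2
  rw [← ZMod.natCast_eq_natCast_iff]
  unfold N
  push_cast
  rw [h3]

/-- a prime divisor `q` of `N_m`, where every odd divisor of `q - 1` divides `m`, divides a Fermat
number `F_j` and is `1` modulo `2 ^ (j + 3)` -/
theorem fermat_of_dvd (q : ℕ) (hq : q.Prime) (h2 : q ≠ 2) (h3 : q ≠ 3) (m : ℕ)
    (hm : ∀ h : ℕ, Odd h → h ∣ q - 1 → h ∣ m) (hN : q ∣ N m) :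
    ∃ j : ℕ, q ∣ 2 ^ (2 ^ j) + 1 ∧ 2 ^ (j + 3) ∣ q - 1 := by
  have : Fact q.Prime := ⟨hq⟩
  obtain ⟨s, hs⟩ := two_sq q h3 m hN
  have hq1 : 1 < q := hq.one_lt
  have hq2 : (2 : ZMod q) ≠ 0 := by
    intro h0
    have h1 : ((2 : ℕ) : ZMod q) = 0 := by exact_mod_cast h0
    rw [ZMod.natCast_eq_zero_iff] at h1
    exact h2 ((Nat.prime_dvd_prime_iff_eq Fact.out Nat.prime_two).1 h1)
  have hq3 : (3 : ZMod q) ≠ 0 := by
    intro h0
    have h1 : ((3 : ℕ) : ZMod q) = 0 := by exact_mod_cast h0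
    rw [ZMod.natCast_eq_zero_iff] at h1
    exact h3 ((Nat.prime_dvd_prime_iff_eq Fact.out Nat.prime_three).1 h1)
  -- the unit `z = (1 + s) ^ m`
  have hs' : (-s) ^ 2 = 2 := by rw [neg_sq, hs]
  have hone : (1 + s) * (s - 1) = 1 := by linear_combination hs
  have h1s : (1 + s) ≠ 0 := left_ne_zero_of_mul_eq_one hone
  set z : ZMod q := (1 + s) ^ m with hz
  have hz0 : z ≠ 0 := pow_ne_zero _ h1s
  have hz2 : z ^ 2 = ((db m).1 : ZMod q) + 2 * s * ((db m).2 : ZMod q) := by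
    rw [← zpow_eq s hs m, hz, ← pow_mul, mul_comm m 2, pow_mul]
    congr 1
    linear_combination hs
  have hzi2 : (z⁻¹) ^ 2 = ((db m).1 : ZMod q) - 2 * s * ((db m).2 : ZMod q) := by
    have e1 : z ^ 2 * (((db m).1 : ZMod q) - 2 * s * ((db m).2 : ZMod q)) = 1 := by
      rw [hz2]
      have hp : ((db m).1 : ZMod q) ^ 2 = 8 * ((db m).2 : ZMod q) ^ 2 + 1 := by
        have := pell m
        exact_mod_cast congrArg (Nat.cast : ℕ → ZMod q) this
      linear_combination hp - 4 * ((db m).2 : ZMod q) ^ 2 * hs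
    rw [inv_pow]
    exact (eq_inv_of_mul_eq_one_right e1).symm
  -- `w ^ 4 = - 2` for `w = z` or `w = z⁻¹`
  have hw : ∃ w : ZMod q, w ≠ 0 ∧ w ^ 4 = -2 ∧ (w = z ∨ w = z⁻¹) := by
    have hN0 : (8 : ZMod q) * ((db m).1 : ZMod q) ^ 2 + 1 = 0 := by
      have h1 : ((N m : ℕ) : ZMod q) = 0 := (ZMod.natCast_eq_zero_iff _ _).2 hN
      unfold N at h1
      push_cast at h1
      exact h1
    have e2 : 2 * ((db m).1 : ZMod q) = z ^ 2 + (z⁻¹) ^ 2 := by rw [hz2, hzi2]; ring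
    have e3 : 2 * (z ^ 2 + (z⁻¹) ^ 2) ^ 2 + 1 = 0 := by
      rw [← e2]
      linear_combination hN0
    have e4 : z * z⁻¹ = 1 := mul_inv_cancel₀ hz0
    have e5 : (z ^ 4 + 2) * ((z⁻¹) ^ 4 + 2) = 0 := by
      have e6 : z ^ 4 * (z⁻¹) ^ 4 = 1 := by rw [← mul_pow, e4, one_pow]
      have e7 : z ^ 2 * (z⁻¹) ^ 2 = 1 := by rw [← mul_pow, e4, one_pow]
      linear_combination e3 + e6 - 4 * e7
    rcases mul_eq_zero.1 e5 with h | h
    · exact ⟨z, hz0, by linear_combination h, Or.inl rfl⟩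
    · exact ⟨z⁻¹, inv_ne_zero hz0, by linear_combination h, Or.inr rfl⟩
  obtain ⟨w, hw0, hw4, hwz⟩ := hw
  -- the order of `w` is a power of two
  obtain ⟨v, h, hodd, hqv⟩ := Nat.exists_eq_two_pow_mul_odd (show q - 1 ≠ 0 by omega)
  have hhm : h ∣ m := hm h hodd (hqv ▸ dvd_mul_left _ _)
  have hzv : z ^ (2 ^ v) = 1 := by
    obtain ⟨t, rfl⟩ := hhm
    rw [hz, ← pow_mul, show h * t * 2 ^ v = (q - 1) * t by rw [hqv]; ring, pow_mul,
      ZMod.pow_card_sub_one_eq_one h1s, one_pow]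
  have hwv : w ^ (2 ^ v) = 1 := by
    rcases hwz with rfl | rfl
    · exact hzv
    · rw [inv_pow, hzv, inv_one]
  obtain ⟨e, -, he⟩ := (Nat.dvd_prime_pow Nat.prime_two).1 (orderOf_dvd_of_pow_eq_one hwv)
  have hwe : w ^ (2 ^ e) = 1 := by rw [← he]; exact pow_orderOf_eq_one w
  have hwn : ∀ i, i < e → w ^ (2 ^ i) ≠ 1 := by
    intro i hi hcon
    have h1 := orderOf_dvd_of_pow_eq_one hcon
    rw [he] at h1
    have h2 := (Nat.pow_dvd_pow_iff_le_right (by norm_num)).1 h1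
    omega
  have hdiv : 2 ^ e ∣ q - 1 := by
    rw [← he]
    exact orderOf_dvd_of_pow_eq_one (ZMod.pow_card_sub_one_eq_one hw0)
  have he4 : 4 ≤ e := by
    by_contra hcon
    have h8 : w ^ 8 = 1 := by
      have : 2 ^ e ∣ 8 := by
        have : e ≤ 3 := by omega
        exact (Nat.pow_dvd_pow 2 this : 2 ^ e ∣ 2 ^ 3)
      obtain ⟨t, ht⟩ := this
      rw [ht, pow_mul, hwe, one_pow]
    have h9 : (w ^ 4) ^ 2 = 1 := by rw [← pow_mul]; exact h8
    rw [hw4] at h9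
    apply hq3
    linear_combination h9
  have hm1 : w ^ (2 ^ (e - 1)) = -1 := by
    have h5 : (w ^ (2 ^ (e - 1))) ^ 2 = 1 := by
      rw [← pow_mul, ← pow_succ, Nat.sub_add_cancel (by omega)]
      exact hwe
    rcases mul_self_eq_one_iff.1 ((sq (w ^ (2 ^ (e - 1)))).symm.trans h5) with h6 | h6
    · exact absurd h6 (hwn _ (by omega))
    · exact h6
  refine ⟨e - 3, ?_, ?_⟩
  · have h7 : w ^ (2 ^ (e - 1)) = (2 : ZMod q) ^ (2 ^ (e - 3)) := by
      have e1 : e - 1 = 2 + (e - 3) := by omega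
      have e2 : e - 3 = 1 + (e - 4) := by omega
      rw [e1, pow_add, pow_mul, show (2 : ℕ) ^ 2 = 4 by norm_num, hw4, e2, pow_add, pow_mul,
        pow_mul]
      norm_num
    rw [← ZMod.natCast_eq_zero_iff]
    push_cast
    rw [← h7, hm1]
    ring
  · rw [Nat.sub_add_cancel (by omega)]
    exact hdiv

/-- counting an arithmetic progression with a small modulus and a small offset -/
theorem count_ap (ε : ℝ) (hε : 0 < ε) (hε1 : ε < 1) (C0 : ℝ) (hC0 : 1 ≤ C0) :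
    ∃ X1 : ℕ, ∀ X : ℕ, X1 ≤ X → ∀ r Q : ℕ, 0 < Q → (Q : ℝ) ≤ C0 * (X : ℝ) ^ (ε / 2) →
      (r : ℝ) ≤ C0 * (X : ℝ) ^ (ε / 2) →
      ∀ S : ℕ → Prop, (∀ i, S (r + Q * i)) →
      (X : ℝ) ^ (1 - ε) ≤ (Nat.card {m : ℕ // 1 ≤ m ∧ m ≤ X ∧ S m} : ℝ) := by
  refine ⟨⌈(4 * C0) ^ (2 / ε)⌉₊ + 1, fun X hX r Q hQ hQX hrX S hS => ?_⟩
  have hX0 : 0 < X := by omega
  have hX1 : (1 : ℝ) ≤ X := by exact_mod_cast hX0
  have hXp : (0 : ℝ) < X := by linarith
  have hbig : 4 * C0 ≤ (X : ℝ) ^ (ε / 2) := by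
    have h1 : (4 * C0) ^ (2 / ε) ≤ (X : ℝ) := (Nat.le_ceil _).trans (by exact_mod_cast (by omega : _ ≤ X))
    have h2 : ((4 * C0) ^ (2 / ε)) ^ (ε / 2) ≤ (X : ℝ) ^ (ε / 2) :=
      Real.rpow_le_rpow (by positivity) h1 (by positivity)
    rwa [← Real.rpow_mul (by positivity), show 2 / ε * (ε / 2) = 1 by field_simp, Real.rpow_one] at h2
  set A := (X : ℝ) ^ (ε / 2) with hA
  set B := (X : ℝ) ^ (1 - ε) with hB
  have hA1 : 1 ≤ A := Real.one_le_rpow hX1 (by positivity)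
  have hB1 : 1 ≤ B := Real.one_le_rpow hX1 (by linarith)
  have hAAB : A * A * B = X := by
    rw [hA, hB, ← Real.rpow_add hXp, ← Real.rpow_add hXp,
      show ε / 2 + ε / 2 + (1 - ε) = 1 by ring, Real.rpow_one]
  have hABX : 4 * C0 * (A * B) ≤ X := by
    rw [← hAAB]
    nlinarith [mul_le_mul_of_nonneg_right hbig (by positivity : (0:ℝ) ≤ A * B)]
  have hrX2 : (r : ℝ) ≤ X / 2 := by
    have : C0 * A ≤ C0 * (A * B) := by
      gcongr
      nlinarith
    linarith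
  have hrX' : r ≤ X := by
    have : (r : ℝ) ≤ X := by linarith
    exact_mod_cast this
  set I := (X - r) / Q with hI
  have hI1 : X - r < Q * (I + 1) := by
    rw [hI, Nat.mul_add, mul_one]
    have := Nat.div_add_mod (X - r) Q
    have := Nat.mod_lt (X - r) hQ
    omega
  have hI2 : Q * I ≤ X - r := Nat.mul_div_le _ _
  have hI3 : (X : ℝ) - r < Q * (I + 1) := by
    have : ((X - r : ℕ) : ℝ) < ((Q * (I + 1) : ℕ) : ℝ) := by exact_mod_cast hI1
    rw [Nat.cast_sub hrX'] at this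
    push_cast at this
    exact this
  have hIB : B ≤ I := by
    by_contra hcon
    push Not at hcon
    have h1 : (Q : ℝ) * (I + 1) ≤ (C0 * A) * (B + B) := by
      have : (I : ℝ) + 1 ≤ B + B := by linarith
      gcongr
    have h2 : (C0 * A) * (B + B) = 2 * C0 * (A * B) := by ring
    linarith
  refine hIB.trans ?_
  have hfin : Finite {m : ℕ // 1 ≤ m ∧ m ≤ X ∧ S m} := by
    apply Set.Finite.to_subtype
    exact (Set.finite_Iic X).subset fun m hm => hm.2.1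
  have hinj : Nat.card (Fin I) ≤ Nat.card {m : ℕ // 1 ≤ m ∧ m ≤ X ∧ S m} := by
    refine Nat.card_le_card_of_injective (fun i : Fin I => ⟨r + Q * (i.1 + 1), ?_, ?_, hS _⟩) ?_
    · nlinarith [Nat.zero_le (Q * i.1)]
    · have h1 : Q * (i.1 + 1) ≤ Q * I := Nat.mul_le_mul_left _ i.2
      omega
    · intro i i' hii
      simp only [Subtype.mk.injEq] at hii
      have h1 : Q * (i.1 + 1) = Q * (i'.1 + 1) := by omega
      have h2 := Nat.eq_of_mul_eq_mul_left hQ h1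
      exact Fin.ext (by omega)
  rw [Nat.card_fin] at hinj
  exact_mod_cast hinj

end Pool.Agent.R803.PV
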