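import Pool.Agent.R803.CM1

/-! # Fermat's equation at places of norm two -/

set_option autoImplicit false

namespace Pool.Agent.R803.TA

open NumberField IsDedekindDomain Height Pool.Agent.W7.FH

variable {K : Type} [Field K] [NumberField K]

theorem height_ge_multi {a b c : K} (ha : a ≠ 0) (hb : b ≠ 0) (hc : c ≠ 0) (hab : a + b ≠ 0)
    (T : Finset (FinitePlace K)) {Q : ℝ} (hQ : 0 ≤ Q)
    (h : ∀ v ∈ T, Q * v (a + b) ≤ mx v a b c) :
    Q ^ T.card ≤ 2 ^ Module.finrank ℚ K * mulHeight ![a, b, c] := by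
  classical
  have hx : ![a, b, c] ≠ 0 := fun h0 => ha (congrFun h0 0)
  have hall : ∀ i : Fin 3, ![a, b, c] i ≠ 0 := by
    intro i
    fin_cases i
    · exact ha
    · exact hb
    · exact hc
  have h1 := NumberField.mulHeight_eq (K := K) hx
  have hfM : (fun v : FinitePlace K => ⨆ i : Fin 3, v (![a, b, c] i)).HasFiniteMulSupport :=
    .iSup fun i => FinitePlace.hasFiniteMulSupport (hall i)
  have hfx : (fun v : FinitePlace K => v (a + b)).HasFiniteMulSupport :=
    FinitePlace.hasFiniteMulSupport hab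
  set S : Finset (FinitePlace K) := T ∪ (hfM.toFinset ∪ hfx.toFinset) with hS
  have e1 : ∏ᶠ v : FinitePlace K, ⨆ i : Fin 3, v (![a, b, c] i) =
      ∏ v ∈ S, ⨆ i : Fin 3, v (![a, b, c] i) := by
    apply finprod_eq_prod_of_mulSupport_subset
    intro w hw
    rw [hS, Finset.coe_union, Finset.coe_union]
    right; left
    exact Finset.mem_coe.mpr ((Set.Finite.mem_toFinset hfM).mpr hw)
  have e2 : ∏ᶠ v : FinitePlace K, v (a + b) = ∏ v ∈ S, v (a + b) := by
    apply finprod_eq_prod_of_mulSupport_subset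
    intro w hw
    rw [hS, Finset.coe_union, Finset.coe_union]
    right; right
    exact Finset.mem_coe.mpr ((Set.Finite.mem_toFinset hfx).mpr hw)
  have hpf := prod_abs_eq_one hab
  rw [e2] at hpf
  rw [h1, e1]
  have hfin : Q ^ T.card * ∏ v ∈ S, v (a + b) ≤ ∏ v ∈ S, ⨆ i : Fin 3, v (![a, b, c] i) := by
    have e3 : Q ^ T.card = ∏ v ∈ S, (if v ∈ T then Q else 1) := by
      rw [Finset.prod_ite_mem, Finset.prod_const]
      congr 2
      rw [hS]
      ext v
      simp only [Finset.mem_inter, Finset.mem_union]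
      tauto
    rw [e3, ← Finset.prod_mul_distrib]
    apply Finset.prod_le_prod
    · intro v _
      by_cases hv : v ∈ T
      · rw [if_pos hv]
        exact mul_nonneg hQ (apply_nonneg _ _)
      · rw [if_neg hv, one_mul]
        exact apply_nonneg _ _
    · intro v _
      rw [iSup_three v a b c]
      by_cases hv : v ∈ T
      · rw [if_pos hv]
        exact h v hv
      · rw [if_neg hv, one_mul]
        exact (FinitePlace.add_le v a b).trans (le_max_left _ _)
  have hinf : ∏ w : InfinitePlace K, w (a + b) ^ w.mult ≤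
      2 ^ Module.finrank ℚ K * ∏ w : InfinitePlace K, (⨆ i : Fin 3, w (![a, b, c] i)) ^ w.mult := by
    have h2 : (2 : ℝ) ^ Module.finrank ℚ K = ∏ w : InfinitePlace K, (2 : ℝ) ^ w.mult := by
      rw [Finset.prod_pow_eq_pow_sum, InfinitePlace.sum_mult_eq]
    rw [h2, ← Finset.prod_mul_distrib]
    apply Finset.prod_le_prod (fun w _ => pow_nonneg (apply_nonneg _ _) _)
    intro w _
    rw [← mul_pow]
    apply pow_le_pow_left₀ (apply_nonneg _ _)
    rw [iSup_three w a b c]
    have h3 : w (a + b) ≤ w a + w b := w.1.add_le a b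
    have h4 : w a ≤ max (max (w a) (w b)) (w c) := le_max_of_le_left (le_max_left _ _)
    have h5 : w b ≤ max (max (w a) (w b)) (w c) := le_max_of_le_left (le_max_right _ _)
    linarith
  have hP0 : 0 ≤ ∏ v ∈ S, v (a + b) := Finset.prod_nonneg fun v _ => apply_nonneg _ _
  have hI0 : 0 ≤ ∏ w : InfinitePlace K, w (a + b) ^ w.mult :=
    Finset.prod_nonneg fun w _ => pow_nonneg (apply_nonneg _ _) _
  calc Q ^ T.card = (∏ w : InfinitePlace K, w (a + b) ^ w.mult) *
        (Q ^ T.card * ∏ v ∈ S, v (a + b)) := by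
        rw [mul_left_comm, hpf, mul_one]
    _ ≤ (2 ^ Module.finrank ℚ K * ∏ w : InfinitePlace K, (⨆ i : Fin 3, w (![a, b, c] i)) ^ w.mult) *
          ∏ v ∈ S, ⨆ i : Fin 3, v (![a, b, c] i) :=
        mul_le_mul hinf hfin (by positivity) (hI0.trans hinf)
    _ = _ := by ring

theorem two_lt_one (v : FinitePlace K) (h2 : nrm v = 2) : v (2 : K) < 1 := by
  have h1 := sub_one_lt v h2 (x := -1) (by rw [map_neg_eq_map, map_one])
  have e : (-1 - 1 : K) = -2 := by norm_num
  rwa [e, map_neg_eq_map] at h1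

theorem odd_eq_one (v : FinitePlace K) (h2 : nrm v = 2) {m : ℕ} (hm : Odd m) :
    v (m : K) = 1 := by
  obtain ⟨k, rfl⟩ := hm
  have h3 : v (2 * (k : K)) < v (1 : K) := by
    rw [map_mul, map_one]
    calc v (2 : K) * v (k : K) ≤ v (2 : K) * 1 :=
          mul_le_mul_of_nonneg_left (natCast_le_one v k) (apply_nonneg _ _)
      _ < 1 := by rw [mul_one]; exact two_lt_one v h2
  push_cast
  rw [add_comm, add_eq_of_lt v h3, map_one]

/-- one of the three numbers is small at a place of norm two -/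
theorem exists_small {n : ℕ} (v : FinitePlace K) (h2 : nrm v = 2) {a b c : K} (hc : c ≠ 0)
    (h : a ^ n + b ^ n + c ^ n = 0) :
    v a < mx v a b c ∨ v b < mx v a b c ∨ v c < mx v a b c := by
  by_contra hcon
  push Not at hcon
  obtain ⟨h3, h4, h5⟩ := hcon
  have ea : v a = mx v a b c := le_antisymm (le_max_of_le_left (le_max_left _ _)) h3
  have eb : v b = mx v a b c := le_antisymm (le_max_of_le_left (le_max_right _ _)) h4
  have ec : v c = mx v a b c := le_antisymm (le_max_right _ _) h5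
  have hvc : v c ≠ 0 := (FinitePlace.pos_iff.mpr hc).ne'
  have g1 : v ((a / c) ^ n - 1) < 1 := sub_one_lt v h2 (by
    rw [map_pow, map_div₀, ea, ← ec, div_self hvc, one_pow])
  have g2 : v ((b / c) ^ n - 1) < 1 := sub_one_lt v h2 (by
    rw [map_pow, map_div₀, eb, ← ec, div_self hvc, one_pow])
  have e1 : (a / c) ^ n + (b / c) ^ n + 1 = 0 := by
    have hcn : c ^ n ≠ 0 := pow_ne_zero _ hc
    rw [div_pow, div_pow]
    field_simp
    rw [h, mul_zero]
  have e2 : ((3 : ℕ) : K) = -(((a / c) ^ n - 1) + ((b / c) ^ n - 1)) := by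
    push_cast
    linear_combination e1
  have g3 := odd_eq_one v h2 (m := 3) (by decide)
  rw [e2, map_neg_eq_map] at g3
  have g4 := FinitePlace.add_le v ((a / c) ^ n - 1) ((b / c) ^ n - 1)
  rw [g3] at g4
  rcases le_max_iff.1 g4 with g5 | g5 <;> linarith

/-- the sum of the two large numbers is very small -/
theorem local_two {n : ℕ} (hn : Odd n) (v : FinitePlace K) (h2 : nrm v = 2) {a b c : K}
    (ha : a ≠ 0) (h : a ^ n + b ^ n + c ^ n = 0)
    (hlt : v c < mx v a b c) : (2 : ℝ) ^ n * v (a + b) ≤ mx v a b c := by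
  have hn0 : n ≠ 0 := hn.pos.ne'
  have hM : mx v a b c = max (v a) (v b) := by
    unfold mx at hlt ⊢
    rcases le_total (max (v a) (v b)) (v c) with h1 | h1
    · rw [max_eq_right h1] at hlt
      exact absurd hlt (lt_irrefl _)
    · exact max_eq_left h1
  have hcn : v (c ^ n) = v (a ^ n + b ^ n) := by
    have : c ^ n = -(a ^ n + b ^ n) := by linear_combination h
    rw [this, map_neg_eq_map]
  have hab : v a = v b := by
    rcases lt_trichotomy (v a) (v b) with h1 | h1 | h1
    · exfalso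
      have h3 : v (a ^ n) < v (b ^ n) := by
        rw [map_pow, map_pow]
        exact pow_lt_pow_left₀ h1 (apply_nonneg _ _) hn0
      rw [add_comm, add_eq_of_lt v h3, map_pow, map_pow] at hcn
      have h4 : v c = v b := (pow_left_inj₀ (apply_nonneg _ _) (apply_nonneg _ _) hn0).1 hcn
      rw [hM, max_eq_right h1.le, h4] at hlt
      exact lt_irrefl _ hlt
    · exact h1
    · exfalso
      have h3 : v (b ^ n) < v (a ^ n) := by
        rw [map_pow, map_pow]
        exact pow_lt_pow_left₀ h1 (apply_nonneg _ _) hn0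
      rw [add_eq_of_lt v h3, map_pow, map_pow] at hcn
      have h4 : v c = v a := (pow_left_inj₀ (apply_nonneg _ _) (apply_nonneg _ _) hn0).1 hcn
      rw [hM, max_eq_left h1.le, h4] at hlt
      exact lt_irrefl _ hlt
  have hMa : mx v a b c = v a := by rw [hM, ← hab, max_self]
  have hva : 0 < v a := FinitePlace.pos_iff.mpr ha
  have ht : v (-(b / a) - 1) < 1 := sub_one_lt v h2 (by
    rw [map_neg_eq_map, map_div₀, ← hab, div_self hva.ne'])
  have h3 := one_add_pow_gen v n (-(b / a) - 1) ht hn0 (by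
    intro p hp hpn
    have hpo : Odd p := by
      rcases hp.eq_two_or_odd' with h4 | h4
      · rw [h4] at hpn
        exact absurd (hn.of_dvd_nat hpn) (by decide)
      · exact h4
    rw [odd_eq_one v h2 hpo]
    exact pow_lt_one₀ (apply_nonneg _ _) ht (by have := hp.two_le; omega))
  rw [odd_eq_one v h2 hn, one_mul] at h3
  have e1 : (1 + (-(b / a) - 1)) ^ n - 1 = (c / a) ^ n := by
    have h4 : 1 + (-(b / a) - 1) = -(b / a) := by ring
    have han : a ^ n ≠ 0 := pow_ne_zero _ ha
    rw [h4, hn.neg_pow, div_pow, div_pow]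
    field_simp
    linear_combination -h
  have e2 : -(b / a) - 1 = -((a + b) / a) := by
    field_simp
    ring
  rw [e1, e2, map_neg_eq_map, map_div₀ v (a + b) a, map_pow] at h3
  have h5 : v (c / a) ≤ ((nrm v : ℕ) : ℝ)⁻¹ := le_inv_nrm v (by
    rw [map_div₀, div_lt_one hva, ← hMa]
    exact hlt)
  rw [h2] at h5
  have h6 : v (a + b) = v (c / a) ^ n * v a := by
    rw [h3, div_mul_cancel₀ _ hva.ne']
  rw [hMa, h6]
  have h7 : v (c / a) ^ n ≤ (((2 : ℕ) : ℝ)⁻¹) ^ n := pow_le_pow_left₀ (apply_nonneg _ _) h5 n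
  have h8 : (2 : ℝ) ^ n * (((2 : ℕ) : ℝ)⁻¹) ^ n = 1 := by
    rw [← mul_pow]
    norm_num
  calc (2 : ℝ) ^ n * (v (c / a) ^ n * v a) ≤ (2 : ℝ) ^ n * ((((2 : ℕ) : ℝ)⁻¹) ^ n * v a) := by
        gcongr
    _ = v a := by rw [← mul_assoc, h8, one_mul]

end Pool.Agent.R803.TA
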