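import Pool.Agent.R803.TA1

/-! # Uniform height bounds and a criterion with units modulo two -/

set_option autoImplicit false

namespace Pool.Agent.R803.TA

open NumberField IsDedekindDomain Height Pool.Agent.W7.FH

variable {K : Type} [Field K] [NumberField K]

theorem main_places {n : ℕ} (hn : Odd n) {a b c : K} (ha : a ≠ 0) (hb : b ≠ 0) (hc : c ≠ 0)
    (h : a ^ n + b ^ n + c ^ n = 0) (T : Finset (FinitePlace K)) (hT : ∀ v ∈ T, nrm v = 2) :
    (2 : ℝ) ^ (n * ((T.card + 2) / 3)) ≤ 2 ^ Module.finrank ℚ K * mulHeight ![a, b, c] := by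
  classical
  have hA : a + b ≠ 0 := add_ne_zero_of_fermat hn hc h
  have hB : b + c ≠ 0 := add_ne_zero_of_fermat hn ha (by linear_combination h)
  have hC : c + a ≠ 0 := add_ne_zero_of_fermat hn hb (by linear_combination h)
  set Ta := T.filter (fun v => v a < mx v a b c) with hTa
  set Tb := T.filter (fun v => v b < mx v a b c) with hTb
  set Tc := T.filter (fun v => v c < mx v a b c) with hTc
  have hsub : T ⊆ Ta ∪ (Tb ∪ Tc) := by
    intro v hv
    rcases exists_small v (hT v hv) hc h with h1 | h1 | h1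
    · exact Finset.mem_union_left _ (Finset.mem_filter.2 ⟨hv, h1⟩)
    · exact Finset.mem_union_right _ (Finset.mem_union_left _ (Finset.mem_filter.2 ⟨hv, h1⟩))
    · exact Finset.mem_union_right _ (Finset.mem_union_right _ (Finset.mem_filter.2 ⟨hv, h1⟩))
  have hcard : T.card ≤ Ta.card + (Tb.card + Tc.card) :=
    (Finset.card_le_card hsub).trans ((Finset.card_union_le _ _).trans
      (Nat.add_le_add_left (Finset.card_union_le _ _) _))
  have hone : (1 : ℝ) ≤ 2 ^ n := one_le_pow₀ (by norm_num)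
  have key : ∀ m : ℕ, (T.card + 2) / 3 ≤ m → ((2 : ℝ) ^ n) ^ m ≤
      2 ^ Module.finrank ℚ K * mulHeight ![a, b, c] →
      (2 : ℝ) ^ (n * ((T.card + 2) / 3)) ≤ 2 ^ Module.finrank ℚ K * mulHeight ![a, b, c] := by
    intro m hm h1
    refine le_trans ?_ h1
    rw [pow_mul]
    exact pow_le_pow_right₀ hone hm
  rcases (by omega : (T.card + 2) / 3 ≤ Ta.card ∨ (T.card + 2) / 3 ≤ Tb.card ∨
    (T.card + 2) / 3 ≤ Tc.card) with h1 | h1 | h1
  · refine key _ h1 ?_
    have h2 := height_ge_multi hb hc ha hB Ta (Q := (2 : ℝ) ^ n) (by positivity) (fun v hv => by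
      have h3 := Finset.mem_filter.1 hv
      refine local_two hn v (hT v h3.1) hb (by linear_combination h) ?_
      rw [mx_rot]
      exact h3.2)
    rwa [mulHeight_rot] at h2
  · refine key _ h1 ?_
    have h2 := height_ge_multi hc ha hb hC Tb (Q := (2 : ℝ) ^ n) (by positivity) (fun v hv => by
      have h3 := Finset.mem_filter.1 hv
      refine local_two hn v (hT v h3.1) hc (by linear_combination h) ?_
      rw [mx_rot, mx_rot]
      exact h3.2)
    rwa [mulHeight_rot, mulHeight_rot] at h2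
  · refine key _ h1 ?_
    exact height_ge_multi ha hb hc hA Tc (Q := (2 : ℝ) ^ n) (by positivity) (fun v hv => by
      have h3 := Finset.mem_filter.1 hv
      exact local_two hn v (hT v h3.1) ha h h3.2)

theorem main_primes {n : ℕ} (hn : Odd n) {a b c : K} (ha : a ≠ 0) (hb : b ≠ 0) (hc : c ≠ 0)
    (h : a ^ n + b ^ n + c ^ n = 0) (S : Finset (HeightOneSpectrum (𝓞 K)))
    (hS : ∀ P ∈ S, Ideal.absNorm P.asIdeal = 2) :
    (2 : ℝ) ^ (n * ((S.card + 2) / 3)) ≤ 2 ^ Module.finrank ℚ K * mulHeight ![a, b, c] := by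
  classical
  have hinj : Function.Injective (fun P : HeightOneSpectrum (𝓞 K) => FinitePlace.mk P) := by
    intro P Q hPQ
    have h1 := congrArg FinitePlace.maximalIdeal hPQ
    simpa only [FinitePlace.maximalIdeal_mk] using h1
  have h1 := main_places hn ha hb hc h (S.image fun P => FinitePlace.mk P) (by
    intro v hv
    obtain ⟨P, hP, rfl⟩ := Finset.mem_image.1 hv
    rw [nrm, FinitePlace.maximalIdeal_mk]
    exact hS P hP)
  rwa [Finset.card_image_of_injective _ hinj] at h1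

/-- the same for the absolute height -/
theorem main_abs {n : ℕ} (hn : Odd n) {a b c : K} (ha : a ≠ 0) (hb : b ≠ 0) (hc : c ≠ 0)
    (h : a ^ n + b ^ n + c ^ n = 0) (S : Finset (HeightOneSpectrum (𝓞 K)))
    (hS : ∀ P ∈ S, Ideal.absNorm P.asIdeal = 2) :
    (2 : ℝ) ^ ((n : ℝ) * S.card / (3 * Module.finrank ℚ K) - 1) ≤
      mulHeight ![a, b, c] ^ (1 / (Module.finrank ℚ K : ℝ)) := by
  have h1 := main_primes hn ha hb hc h S hS
  have hd : (0 : ℝ) < Module.finrank ℚ K := by exact_mod_cast Module.finrank_pos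
  have hH : (0 : ℝ) ≤ mulHeight ![a, b, c] := zero_le_one.trans (one_le_mulHeight _)
  have h2 : ((2 : ℝ) ^ ((n : ℝ) * S.card / (3 * Module.finrank ℚ K) - 1)) ^
      (Module.finrank ℚ K : ℝ) ≤ mulHeight ![a, b, c] := by
    rw [← Real.rpow_mul (by norm_num)]
    have e1 : ((n : ℝ) * S.card / (3 * Module.finrank ℚ K) - 1) * Module.finrank ℚ K =
        (n : ℝ) * S.card / 3 - Module.finrank ℚ K := by
      field_simp
    rw [e1, Real.rpow_sub (by norm_num), Real.rpow_natCast, div_le_iff₀ (by positivity)]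
    have h3 : (2 : ℝ) ^ ((n : ℝ) * S.card / 3) ≤ (2 : ℝ) ^ (n * ((S.card + 2) / 3)) := by
      rw [← Real.rpow_natCast]
      apply Real.rpow_le_rpow_of_exponent_le (by norm_num)
      push_cast
      have h4 : ((S.card : ℝ)) / 3 ≤ (((S.card + 2) / 3 : ℕ) : ℝ) := by
        have h5 : S.card ≤ 3 * ((S.card + 2) / 3) := by omega
        have h6 : (S.card : ℝ) ≤ 3 * (((S.card + 2) / 3 : ℕ) : ℝ) := by exact_mod_cast h5
        linarith
      have h7 : (0 : ℝ) ≤ n := Nat.cast_nonneg n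
      calc (n : ℝ) * S.card / 3 = n * (S.card / 3) := by ring
        _ ≤ n * (((S.card + 2) / 3 : ℕ) : ℝ) := mul_le_mul_of_nonneg_left h4 h7
    calc (2 : ℝ) ^ ((n : ℝ) * S.card / 3) ≤ (2 : ℝ) ^ (n * ((S.card + 2) / 3)) := h3
      _ ≤ 2 ^ Module.finrank ℚ K * mulHeight ![a, b, c] := h1
      _ = mulHeight ![a, b, c] * 2 ^ Module.finrank ℚ K := mul_comm _ _
  have h3 := Real.rpow_le_rpow (by positivity) h2 (show 0 ≤ 1 / (Module.finrank ℚ K : ℝ) by positivity)
  rwa [← Real.rpow_mul (by positivity), mul_one_div_cancel hd.ne', Real.rpow_one] at h3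

theorem real_signs {n : ℕ} (hn : Odd n) {a b c : ℝ} (h : a ^ n + b ^ n + c ^ n = 0)
    (h1 : 0 < (a + b) / (b + c)) (h2 : 0 < (c + a) / (b + c)) : False := by
  have key : ∀ x y z : ℝ, x ^ n + y ^ n + z ^ n = 0 → 0 < x + y → z < 0 := by
    intro x y z h3 h4
    have h5 : (-y) ^ n < x ^ n := hn.strictMono_pow (by linarith)
    rw [hn.neg_pow] at h5
    have h6 : z ^ n < 0 := by linarith
    exact hn.pow_neg_iff.1 h6
  have key' : ∀ x y z : ℝ, x ^ n + y ^ n + z ^ n = 0 → x + y < 0 → 0 < z := by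
    intro x y z h3 h4
    have h5 := key (-x) (-y) (-z) (by
      rw [hn.neg_pow, hn.neg_pow, hn.neg_pow]
      linarith) (by linarith)
    linarith
  rcases div_pos_iff.1 h1 with ⟨h3, h4⟩ | ⟨h3, h4⟩
  · rcases div_pos_iff.1 h2 with ⟨h5, h6⟩ | ⟨h5, h6⟩
    · have g1 := key a b c h h3
      have g2 := key b c a (by linarith) h4
      linarith
    · linarith
  · rcases div_pos_iff.1 h2 with ⟨h5, h6⟩ | ⟨h5, h6⟩
    · linarith
    · have g1 := key' a b c h h3
      have g2 := key' b c a (by linarith) h4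
      linarith

/-- the criterion with units modulo two -/
theorem main_units
    (hU : ∀ x y : (𝓞 K)ˣ, (2 : 𝓞 K) ∣ 1 + x + y → ∃ φ : K →+* ℝ,
      0 < φ (algebraMap (𝓞 K) K (x : 𝓞 K)) ∧ 0 < φ (algebraMap (𝓞 K) K (y : 𝓞 K)))
    {n : ℕ} (hn : 2 ≤ n)
    (hp : ∀ p : ℕ, p.Prime → p ∣ n → 5 ≤ p ∧ 2 * Module.finrank ℚ K ≤ p)
    {a b c : K} (ha : a ≠ 0) (hb : b ≠ 0) (hc : c ≠ 0) (h : a ^ n + b ^ n + c ^ n = 0) :
    (2 : ℝ) ^ n ≤ 2 ^ Module.finrank ℚ K * mulHeight ![a, b, c] := by
  by_contra hcon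
  push Not at hcon
  have hd : 0 < Module.finrank ℚ K := Module.finrank_pos
  have hm : ∀ p : ℕ, p.Prime → p ∣ n → Module.finrank ℚ K + 1 < p := by
    intro p hpp hpn
    have := hp p hpp hpn
    omega
  have hmf : n.minFac.Prime := Nat.minFac_prime (by omega)
  have h5 := hp _ hmf (Nat.minFac_dvd n)
  have hv := units_of_small hn hm ha hb hc h (Q := (2 : ℝ) ^ n) (by positivity) (fun w => by
      apply pow_le_pow_left₀ (by norm_num)
      have := one_lt_nrm w
      exact_mod_cast this) (by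
      have := pow_bound (d := Module.finrank ℚ K) (l := n.minFac) (n := n) (by omega) h5.2 (by omega)
        (Nat.minFac_dvd n)
      exact_mod_cast this) hcon
  have hodd : Odd n := odd_of_big hd hm
  have hA : a + b ≠ 0 := add_ne_zero_of_fermat hodd hc h
  have hB : b + c ≠ 0 := add_ne_zero_of_fermat hodd ha (by linear_combination h)
  have hC : c + a ≠ 0 := add_ne_zero_of_fermat hodd hb (by linear_combination h)
  have vpos : ∀ (v : FinitePlace K) (z : K), z ≠ 0 → v z ≠ 0 := fun v z hz =>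
    (FinitePlace.pos_iff.mpr hz).ne'
  obtain ⟨u, hu⟩ := Pool.Agent.R803.CM.exists_unit ((a + b) / (b + c)) (div_ne_zero hA hB)
    (fun v => by
      rw [map_div₀, (hv v).1, (hv v).2.1, div_self]
      rw [← (hv v).2.1]
      exact vpos v _ hB)
  obtain ⟨w, hw⟩ := Pool.Agent.R803.CM.exists_unit ((c + a) / (b + c)) (div_ne_zero hC hB)
    (fun v => by
      rw [map_div₀, (hv v).2.2, (hv v).2.1, div_self]
      rw [← (hv v).2.1]
      exact vpos v _ hB)
  have hs : IsIntegral ℤ ((a + b + c) / (b + c)) := isIntegral_of_le _ (fun v => by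
      have h1 : 0 < v (b + c) := FinitePlace.pos_iff.mpr hB
      rw [map_div₀, div_le_one h1, (hv v).2.1]
      refine (FinitePlace.add_le v (a + b) c).trans (max_le ?_ (le_max_right _ _))
      rw [(hv v).1])
  obtain ⟨t, ht⟩ : ∃ t : 𝓞 K, algebraMap (𝓞 K) K t = (a + b + c) / (b + c) := ⟨⟨_, hs⟩, rfl⟩
  obtain ⟨φ, hφ1, hφ2⟩ := hU u w (by
    refine ⟨t, ?_⟩
    apply Pool.Agent.R803.CM.inj_alg
    rw [map_add, map_add, map_one, map_mul, map_ofNat, hu, hw, ht]
    field_simp
    ring)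
  rw [hu, map_div₀, map_add, map_add] at hφ1
  rw [hw, map_div₀, map_add, map_add] at hφ2
  have h6 := congrArg φ h
  rw [map_add, map_add, map_pow, map_pow, map_pow, map_zero] at h6
  exact real_signs hodd h6 hφ1 hφ2

end Pool.Agent.R803.TA
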