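import Pool.Agent.R803.TA2
import Pool.Agent.R803.CM2

/-! # The criterion for a prime above two and for CM fields -/

set_option autoImplicit false

namespace Pool.Agent.R803.TA

open NumberField IsDedekindDomain Height Pool.Agent.W7.FH

/-- the hypothesis on units: if `1 + x + y` is even for two units `x`, `y` then both are positive
at some real place -/
def UnitsOdd (F : Type) [Field F] : Prop :=
  ∀ x y : (𝓞 F)ˣ, (2 : 𝓞 F) ∣ 1 + x + y → ∃ φ : F →+* ℝ,
    0 < φ (algebraMap (𝓞 F) F (x : 𝓞 F)) ∧ 0 < φ (algebraMap (𝓞 F) F (y : 𝓞 F))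

section general

variable {K : Type} [Field K] [NumberField K]

/-- the hypothesis holds if all units are `1` modulo some prime above two -/
theorem unitsOdd_of_prime (q : Ideal (𝓞 K)) (hq : q.IsPrime) (h2 : (2 : 𝓞 K) ∈ q)
    (hu : ∀ x : (𝓞 K)ˣ, (x : 𝓞 K) - 1 ∈ q) : UnitsOdd K := by
  intro x y h
  exfalso
  apply hq.ne_top
  rw [Ideal.eq_top_iff_one]
  have h1 : 1 + (x : 𝓞 K) + y ∈ q := Ideal.mem_of_dvd q h h2
  have h3 : (1 : 𝓞 K) = (1 + (x : 𝓞 K) + y) - ((x : 𝓞 K) - 1) - ((y : 𝓞 K) - 1) - 2 := by ring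
  rw [h3]
  exact q.sub_mem (q.sub_mem (q.sub_mem h1 (hu x)) (hu y)) h2

end general

variable {K : Type} [Field K] [NumberField K] [IsCMField K]

open NumberField.IsCMField

/-- for CM fields the hypothesis on the real units suffices -/
theorem main_cm {k : ℕ} (htor : Units.torsionOrder K = 2 ^ k)
    (hU : UnitsOdd (maximalRealSubfield K)) {n : ℕ} (hn : 2 ≤ n)
    (hp : ∀ p : ℕ, p.Prime → p ∣ n → 5 ≤ p ∧ 2 * Module.finrank ℚ K ≤ p)
    {a b c : K} (ha : a ≠ 0) (hb : b ≠ 0) (hc : c ≠ 0) (h : a ^ n + b ^ n + c ^ n = 0) :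
    (2 : ℝ) ^ n ≤ 2 ^ Module.finrank ℚ K * mulHeight ![a, b, c] := by
  by_contra hcon
  push Not at hcon
  have hd : 0 < Module.finrank ℚ K := Module.finrank_pos
  have hm : ∀ p : ℕ, p.Prime → p ∣ n → Module.finrank ℚ K + 1 < p := by
    intro p hpp hpn
    have := hp p hpp hpn
    omega
  have hmf : n.minFac.Prime := Nat.minFac_prime (by omega)
  have h5 := hp _ hmf (Nat.minFac_dvd n)
  have hv := units_of_small hn hm ha hb hc h (Q := (2 : ℝ) ^ n) (by positivity) (fun w => by
      apply pow_le_pow_left₀ (by norm_num)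
      have := one_lt_nrm w
      exact_mod_cast this) (by
      have := pow_bound (d := Module.finrank ℚ K) (l := n.minFac) (n := n) (by omega) h5.2 (by omega)
        (Nat.minFac_dvd n)
      exact_mod_cast this) hcon
  have hodd : Odd n := odd_of_big hd hm
  have hA : a + b ≠ 0 := add_ne_zero_of_fermat hodd hc h
  have hB : b + c ≠ 0 := add_ne_zero_of_fermat hodd ha (by linear_combination h)
  have hC : c + a ≠ 0 := add_ne_zero_of_fermat hodd hb (by linear_combination h)
  have vpos : ∀ (v : FinitePlace K) (z : K), z ≠ 0 → v z ≠ 0 := fun v z hz =>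
    (FinitePlace.pos_iff.mpr hz).ne'
  obtain ⟨u, hu⟩ := Pool.Agent.R803.CM.exists_unit ((a + b) / (b + c)) (div_ne_zero hA hB)
    (fun v => by
      rw [map_div₀, (hv v).1, (hv v).2.1, div_self]
      rw [← (hv v).2.1]
      exact vpos v _ hB)
  obtain ⟨w, hw⟩ := Pool.Agent.R803.CM.exists_unit ((c + a) / (b + c)) (div_ne_zero hC hB)
    (fun v => by
      rw [map_div₀, (hv v).2.2, (hv v).2.1, div_self]
      rw [← (hv v).2.1]
      exact vpos v _ hB)
  have hs : IsIntegral ℤ ((a + b + c) / (b + c)) := isIntegral_of_le _ (fun v => by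
      have h1 : 0 < v (b + c) := FinitePlace.pos_iff.mpr hB
      rw [map_div₀, div_le_one h1, (hv v).2.1]
      refine (FinitePlace.add_le v (a + b) c).trans (max_le ?_ (le_max_right _ _))
      rw [(hv v).1])
  obtain ⟨t, ht⟩ : ∃ t : 𝓞 K, algebraMap (𝓞 K) K t = (a + b + c) / (b + c) := ⟨⟨_, hs⟩, rfl⟩
  -- the solution is real up to a factor
  obtain ⟨r, hr, a', b', c', h1, h2, h3⟩ :=
    Pool.Agent.R803.CM.real_of_unit htor hodd ha hb hc h hv
  obtain ⟨g1, g2, g3, g4⟩ := Pool.Agent.R803.CM.real_solution hr a' b' c' ha hb hc h h1 h2 h3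
  have hB' : ((b' + c' : maximalRealSubfield K) : K) ≠ 0 := by
    intro h0
    apply hB
    rw [h2, h3, ← mul_add]
    push_cast at h0
    rw [h0, mul_zero]
  have ex : (a + b) / (b + c) = (((a' + b') / (b' + c') : maximalRealSubfield K) : K) := by
    push_cast at hB' ⊢
    rw [h1, h2, h3, ← mul_add, ← mul_add, mul_div_mul_left _ _ hr]
  have ey : (c + a) / (b + c) = (((c' + a') / (b' + c') : maximalRealSubfield K) : K) := by
    push_cast at hB' ⊢
    rw [h1, h2, h3, ← mul_add, ← mul_add, mul_div_mul_left _ _ hr]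
  have es : (a + b + c) / (b + c) = (((a' + b' + c') / (b' + c') : maximalRealSubfield K) : K) := by
    push_cast at hB' ⊢
    rw [h1, h2, h3, ← mul_add, ← mul_add, ← mul_add, mul_div_mul_left _ _ hr]
  have cx : complexConj K (algebraMap (𝓞 K) K (u : 𝓞 K)) = algebraMap (𝓞 K) K (u : 𝓞 K) := by
    rw [hu, ex]
    exact complexConj_apply_eq_self K _
  have cy : complexConj K (algebraMap (𝓞 K) K (w : 𝓞 K)) = algebraMap (𝓞 K) K (w : 𝓞 K) := by
    rw [hw, ey]
    exact complexConj_apply_eq_self K _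
  have cs : complexConj K (algebraMap (𝓞 K) K t) = algebraMap (𝓞 K) K t := by
    rw [ht, es]
    exact complexConj_apply_eq_self K _
  obtain ⟨u', hu'⟩ := (NumberField.IsCMField.Units.complexConj_eq_self_iff K u).1 cx
  obtain ⟨w', hw'⟩ := (NumberField.IsCMField.Units.complexConj_eq_self_iff K w).1 cy
  obtain ⟨t', ht'⟩ := (NumberField.IsCMField.RingOfIntegers.complexConj_eq_self_iff K t).1 cs
  have inj : Function.Injective (algebraMap (𝓞 (maximalRealSubfield K)) K) :=
    FaithfulSMul.algebraMap_injective _ _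
  have ux : algebraMap (𝓞 (maximalRealSubfield K)) (maximalRealSubfield K)
      (u' : 𝓞 (maximalRealSubfield K)) = (a' + b') / (b' + c') := by
    apply Subtype.coe_injective
    exact hu'.trans (hu.trans ex)
  have uy : algebraMap (𝓞 (maximalRealSubfield K)) (maximalRealSubfield K)
      (w' : 𝓞 (maximalRealSubfield K)) = (c' + a') / (b' + c') := by
    apply Subtype.coe_injective
    exact hw'.trans (hw.trans ey)
  obtain ⟨φ, hφ1, hφ2⟩ := hU u' w' (by
    refine ⟨t', ?_⟩
    apply inj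
    rw [map_add, map_add, map_one, map_mul, map_ofNat]
    have hu'' : algebraMap (𝓞 (maximalRealSubfield K)) K (u' : 𝓞 (maximalRealSubfield K)) =
      algebraMap (𝓞 K) K (u : 𝓞 K) := hu'
    have hw'' : algebraMap (𝓞 (maximalRealSubfield K)) K (w' : 𝓞 (maximalRealSubfield K)) =
      algebraMap (𝓞 K) K (w : 𝓞 K) := hw'
    have ht'' : algebraMap (𝓞 (maximalRealSubfield K)) K t' = algebraMap (𝓞 K) K t := ht'
    rw [hu'', hw'', ht'', hu, hw, ht]
    field_simp
    ring)
  rw [ux, map_div₀, map_add, map_add] at hφ1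
  rw [uy, map_div₀, map_add, map_add] at hφ2
  have h6 := congrArg φ g4
  rw [map_add, map_add, map_pow, map_pow, map_pow, map_zero] at h6
  exact real_signs hodd h6 hφ1 hφ2

end Pool.Agent.R803.TA
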