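import Pool.Agent.W7.FH.Gm
import Pool.Agent.TH876.Light

/-!
# Fermat's equation with `a + b + c = 0` and the unit equation

The number of the exponents with a solution with `a + b + c = 0` by units, up to a factor, is
bounded in terms of the degree of the field.
-/

set_option autoImplicit false

namespace Pool.Agent.R803.UE

open NumberField IsDedekindDomain Height Pool.Agent.W7.FH
open Pool.Agent.TH876.Loc (Pr Pt sp out hgt hgt_nonneg light_count)
open Pool.Agent.H691R3 (fv)

/-- `x` and `x + 1` are units -/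
def UP {K : Type} [Field K] [NumberField K] (x : K) : Prop :=
  x ≠ 0 ∧ x + 1 ≠ 0 ∧ ∀ v : FinitePlace K, v x = 1 ∧ v (x + 1) = 1

theorem few_units (d : ℕ) : ∃ N : ℕ, ∀ (K : Type) [Field K] [NumberField K],
    Module.finrank ℚ K = d → ∀ E : Finset K, (∀ x ∈ E, UP x) → E.card ≤ N := by
  obtain ⟨C, hC1, hC⟩ := light_count d (3 / 7) (by norm_num)
  refine ⟨⌊C⌋₊, fun K _ _ hd E hE => ?_⟩
  apply Nat.le_floor
  have h := hC K hd ∅ E (fun x hx => ?_)
  · simpa using h
  · obtain ⟨h0, h1, h2⟩ := hE x hx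
    refine ⟨⟨h0, h1⟩, ?_⟩
    have hsp : sp x = ∅ := by
      classical
      unfold sp
      rw [dif_pos (Pool.Agent.TH876.Loc.sp_finite ⟨h0, h1⟩)]
      ext v
      rw [Set.Finite.mem_toFinset]
      constructor
      · intro hv
        exact absurd ⟨(h2 (FinitePlace.mk v)).1, (h2 (FinitePlace.mk v)).2⟩ hv
      · intro hv
        exact absurd hv (Finset.notMem_empty v)
    have ho : out ∅ x = 0 := by
      unfold out
      rw [hsp]
      simp
    rw [ho]
    exact mul_nonneg (by norm_num) (hgt_nonneg x)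

/-- two complex numbers of absolute value one with difference one -/
theorem complex_omega (z : ℂ) (h1 : ‖z‖ = 1) (h2 : ‖z + 1‖ = 1) : z ^ 2 + z + 1 = 0 := by
  have e1 : z.re * z.re + z.im * z.im = 1 := by
    rw [← Complex.normSq_apply, Complex.normSq_eq_norm_sq, h1, one_pow]
  have e2 : (z.re + 1) * (z.re + 1) + z.im * z.im = 1 := by
    have := Complex.normSq_apply (z + 1)
    rw [Complex.normSq_eq_norm_sq, h2, one_pow] at this
    simp only [Complex.add_re, Complex.one_re, Complex.add_im, Complex.one_im, add_zero] at this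
    exact this.symm
  have hre : z.re = -1 / 2 := by linarith
  apply Complex.ext
  · simp only [pow_two, Complex.add_re, Complex.mul_re, Complex.one_re, Complex.zero_re]
    rw [hre] at e1 ⊢
    nlinarith
  · simp only [pow_two, Complex.add_im, Complex.mul_im, Complex.one_im, Complex.zero_im]
    rw [hre]
    ring

theorem omega_of_torsion {K : Type} [Field K] [NumberField K] {x : K} {i j : ℕ} (hi : i ≠ 0)
    (hj : j ≠ 0) (h1 : x ^ i = 1) (h2 : (x + 1) ^ j = 1) : x ^ 2 + x + 1 = 0 := by
  obtain ⟨φ⟩ : Nonempty (K →+* ℂ) := inferInstance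
  have e1 : ‖φ x‖ = 1 := by
    have := congrArg φ h1
    rw [map_pow, map_one] at this
    exact Complex.norm_eq_one_of_pow_eq_one this hi
  have e2 : ‖φ x + 1‖ = 1 := by
    have := congrArg φ h2
    rw [map_pow, map_add, map_one] at this
    exact Complex.norm_eq_one_of_pow_eq_one this hj
  have e3 := complex_omega (φ x) e1 e2
  apply φ.injective
  rw [map_add, map_add, map_pow, map_one, map_zero]
  exact e3

theorem inj_pow {K : Type} [Field K] {x : K} (hx : x ≠ 0)
    (h : ∀ i : ℕ, i ≠ 0 → x ^ i ≠ 1) : Function.Injective fun n : ℕ => x ^ n := by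
  have key : ∀ m n : ℕ, m < n → x ^ m ≠ x ^ n := by
    intro m n hmn he
    apply h (n - m) (by omega)
    have : x ^ m * x ^ (n - m) = x ^ m * 1 := by
      rw [← pow_add, mul_one, Nat.add_sub_cancel' hmn.le, he]
    exact mul_left_cancel₀ (pow_ne_zero m hx) this
  intro m n hmn
  rcases lt_trichotomy m n with h1 | h1 | h1
  · exact absurd hmn (key m n h1)
  · exact h1
  · exact absurd hmn.symm (key n m h1)

/-- the powers are again solutions of the unit equation -/
theorem up_pow {K : Type} [Field K] [NumberField K] {x : K} (hx : UP x) {n : ℕ}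
    (h : (x + 1) ^ n = x ^ n + 1) : UP (x ^ n) := by
  refine ⟨pow_ne_zero n hx.1, ?_, fun v => ⟨?_, ?_⟩⟩
  · rw [← h]
    exact pow_ne_zero n hx.2.1
  · rw [map_pow, (hx.2.2 v).1, one_pow]
  · rw [← h, map_pow, (hx.2.2 v).2, one_pow]

theorem up_pow' {K : Type} [Field K] [NumberField K] {x : K} (hx : UP x) {n : ℕ}
    (h : (x + 1) ^ n = x ^ n + 1) : UP (-(x + 1) ^ n) := by
  have e : -(x + 1) ^ n + 1 = -x ^ n := by rw [h]; ring
  refine ⟨neg_ne_zero.2 (pow_ne_zero n hx.2.1), ?_, fun v => ⟨?_, ?_⟩⟩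
  · rw [e]
    exact neg_ne_zero.2 (pow_ne_zero n hx.1)
  · rw [map_neg_eq_map, map_pow, (hx.2.2 v).2, one_pow]
  · rw [e, map_neg_eq_map, map_pow, (hx.2.2 v).1, one_pow]

/-- few exponents for one `x` -/
theorem few_exps {K : Type} [Field K] [NumberField K] {N : ℕ}
    (hN : ∀ E : Finset K, (∀ x ∈ E, UP x) → E.card ≤ N) {x : K} (hx : UP x)
    (hx3 : x ^ 2 + x + 1 ≠ 0) (F : Finset ℕ) (hF : ∀ n ∈ F, (x + 1) ^ n = x ^ n + 1) :
    F.card ≤ N := by
  classical
  by_cases ht : ∃ i : ℕ, i ≠ 0 ∧ x ^ i = 1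
  · obtain ⟨i, hi, hi1⟩ := ht
    have h1 : Function.Injective fun n : ℕ => (x + 1) ^ n := by
      apply inj_pow hx.2.1
      intro j hj hj1
      exact hx3 (omega_of_torsion hi hj hi1 hj1)
    have h2 : Function.Injective fun n : ℕ => -(x + 1) ^ n := fun m n hmn => h1 (neg_injective hmn)
    rw [← Finset.card_image_of_injective F h2]
    apply hN
    intro z hz
    obtain ⟨n, hn, rfl⟩ := Finset.mem_image.1 hz
    exact up_pow' hx (hF n hn)
  · push Not at ht
    have h1 : Function.Injective fun n : ℕ => x ^ n := inj_pow hx.1 ht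
    rw [← Finset.card_image_of_injective F h1]
    apply hN
    intro z hz
    obtain ⟨n, hn, rfl⟩ := Finset.mem_image.1 hz
    exact up_pow hx (hF n hn)

/-- few exponents -/
theorem few_all {K : Type} [Field K] [NumberField K] {N : ℕ}
    (hN : ∀ E : Finset K, (∀ x ∈ E, UP x) → E.card ≤ N) (F : Finset ℕ)
    (hF : ∀ n ∈ F, ∃ x : K, UP x ∧ x ^ 2 + x + 1 ≠ 0 ∧ (x + 1) ^ n = x ^ n + 1) :
    F.card ≤ N * N := by
  classical
  choose! f hf using hF
  have h1 : F.card ≤ N * (F.image f).card := by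
    apply Finset.card_le_mul_card_image
    intro x hx
    obtain ⟨n, hn, rfl⟩ := Finset.mem_image.1 hx
    apply few_exps hN (hf n hn).1 (hf n hn).2.1
    intro m hm
    rw [Finset.mem_filter] at hm
    rw [← hm.2]
    exact (hf m hm.1).2.2
  refine h1.trans (Nat.mul_le_mul_left N (hN _ ?_))
  intro x hx
  obtain ⟨n, hn, rfl⟩ := Finset.mem_image.1 hx
  exact (hf n hn).1

variable {K : Type} [Field K] [NumberField K]

/-- a small solution with `a + b + c = 0` gives a solution of the unit equation -/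
theorem unit_of_small {n : ℕ} (hn : 2 ≤ n)
    (hp : ∀ p : ℕ, p.Prime → p ∣ n → 5 ≤ p ∧ 2 * Module.finrank ℚ K ≤ p)
    {a b c : K} (ha : a ≠ 0) (hb : b ≠ 0) (hc : c ≠ 0) (h : a ^ n + b ^ n + c ^ n = 0)
    (hs : a + b + c = 0)
    (hH : 2 ^ Module.finrank ℚ K * mulHeight ![a, b, c] < (2 : ℝ) ^ n) :
    UP (a / b) ∧ (a / b + 1) ^ n = (a / b) ^ n + 1 := by
  have hd : 0 < Module.finrank ℚ K := Module.finrank_pos
  have hm : ∀ p : ℕ, p.Prime → p ∣ n → Module.finrank ℚ K + 1 < p := by
    intro p hpp hpn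
    have := hp p hpp hpn
    omega
  have hmf : n.minFac.Prime := Nat.minFac_prime (by omega)
  have h5 := hp _ hmf (Nat.minFac_dvd n)
  have h1 := units_of_small hn hm ha hb hc h (Q := (2 : ℝ) ^ n) (by positivity) (fun w => by
      apply pow_le_pow_left₀ (by norm_num)
      have := one_lt_nrm w
      exact_mod_cast this) (by
      have := pow_bound (d := Module.finrank ℚ K) (l := n.minFac) (n := n) (by omega) h5.2 (by omega)
        (Nat.minFac_dvd n)
      exact_mod_cast this) hH
  have hodd : Odd n := odd_of_big hd hm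
  have e1 : a + b = -c := by linear_combination hs
  have e2 : b + c = -a := by linear_combination hs
  have e3 : c + a = -b := by linear_combination hs
  have e4 : a / b + 1 = -c / b := by
    rw [← e1]
    field_simp
  refine ⟨⟨div_ne_zero ha hb, ?_, fun v => ⟨?_, ?_⟩⟩, ?_⟩
  · rw [e4]
    exact div_ne_zero (neg_ne_zero.2 hc) hb
  · obtain ⟨-, g2, g3⟩ := h1 v
    rw [e2, map_neg_eq_map] at g2
    rw [e3, map_neg_eq_map] at g3
    rw [map_div₀, g2, g3, div_self]
    rw [← g3]
    exact (FinitePlace.pos_iff.mpr hb).ne'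
  · obtain ⟨g1, -, g3⟩ := h1 v
    rw [e1, map_neg_eq_map] at g1
    rw [e3, map_neg_eq_map] at g3
    rw [e4, map_div₀, map_neg_eq_map, g1, g3, div_self]
    rw [← g3]
    exact (FinitePlace.pos_iff.mpr hb).ne'
  · rw [e4, div_pow, div_pow, hodd.neg_pow]
    have hbn : b ^ n ≠ 0 := pow_ne_zero n hb
    field_simp
    linear_combination -h

end Pool.Agent.R803.UE
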