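import Pool.Agent.R803.UE1

/-!
# Heights and divisors; solutions with `a + b + c = 0` are units
-/

set_option autoImplicit false

namespace Pool.Agent.R803.UE

open NumberField IsDedekindDomain Height Pool.Agent.W7.FH

variable {K : Type} [Field K] [NumberField K]

theorem height_ge_coord {a b c : K} (ha : a ≠ 0) (hb : b ≠ 0) (hc : c ≠ 0)
    (v0 : FinitePlace K) {Q : ℝ} (hQ : 0 ≤ Q)
    (h : Q * v0 c ≤ max (max (v0 a) (v0 b)) (v0 c)) : Q ≤ mulHeight ![a, b, c] := by
  classical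
  have hx : ![a, b, c] ≠ 0 := fun h0 => ha (congrFun h0 0)
  have hall : ∀ i : Fin 3, ![a, b, c] i ≠ 0 := by
    intro i
    fin_cases i
    · exact ha
    · exact hb
    · exact hc
  have h1 := NumberField.mulHeight_eq (K := K) hx
  have hfM : (fun v : FinitePlace K => ⨆ i : Fin 3, v (![a, b, c] i)).HasFiniteMulSupport :=
    .iSup fun i => FinitePlace.hasFiniteMulSupport (hall i)
  have hfx : (fun v : FinitePlace K => v c).HasFiniteMulSupport :=
    FinitePlace.hasFiniteMulSupport hc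
  set S : Finset (FinitePlace K) := insert v0 (hfM.toFinset ∪ hfx.toFinset) with hS
  have e1 : ∏ᶠ v : FinitePlace K, ⨆ i : Fin 3, v (![a, b, c] i) =
      ∏ v ∈ S, ⨆ i : Fin 3, v (![a, b, c] i) := by
    apply finprod_eq_prod_of_mulSupport_subset
    intro w hw
    rw [hS, Finset.coe_insert, Finset.coe_union]
    right; left
    exact Finset.mem_coe.mpr ((Set.Finite.mem_toFinset hfM).mpr hw)
  have e2 : ∏ᶠ v : FinitePlace K, v c = ∏ v ∈ S, v c := by
    apply finprod_eq_prod_of_mulSupport_subset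
    intro w hw
    rw [hS, Finset.coe_insert, Finset.coe_union]
    right; right
    exact Finset.mem_coe.mpr ((Set.Finite.mem_toFinset hfx).mpr hw)
  have hpf := prod_abs_eq_one hc
  rw [e2] at hpf
  rw [h1, e1]
  have hfin : Q * ∏ v ∈ S, v c ≤ ∏ v ∈ S, ⨆ i : Fin 3, v (![a, b, c] i) := by
    rw [← Finset.mul_prod_erase S (fun v : FinitePlace K => v c)
      (Finset.mem_insert_self v0 _), ← Finset.mul_prod_erase S
      (fun v : FinitePlace K => ⨆ i : Fin 3, v (![a, b, c] i)) (Finset.mem_insert_self v0 _),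
      ← mul_assoc]
    apply mul_le_mul
    · rw [iSup_three v0 a b c]
      exact h
    · apply Finset.prod_le_prod (fun v _ => apply_nonneg _ _)
      intro v _
      rw [iSup_three v a b c]
      exact le_max_right _ _
    · exact Finset.prod_nonneg fun v _ => apply_nonneg _ _
    · rw [iSup_three v0 a b c]
      exact le_max_of_le_right (apply_nonneg _ _)
  have hinf : ∏ w : InfinitePlace K, w c ^ w.mult ≤
      ∏ w : InfinitePlace K, (⨆ i : Fin 3, w (![a, b, c] i)) ^ w.mult := by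
    apply Finset.prod_le_prod (fun w _ => pow_nonneg (apply_nonneg _ _) _)
    intro w _
    apply pow_le_pow_left₀ (apply_nonneg _ _)
    rw [iSup_three w a b c]
    exact le_max_right _ _
  have hP0 : 0 ≤ ∏ v ∈ S, v c := Finset.prod_nonneg fun v _ => apply_nonneg _ _
  have hI0 : 0 ≤ ∏ w : InfinitePlace K, w c ^ w.mult :=
    Finset.prod_nonneg fun w _ => pow_nonneg (apply_nonneg _ _) _
  calc Q = (∏ w : InfinitePlace K, w c ^ w.mult) * (Q * ∏ v ∈ S, v c) := by
        rw [mul_left_comm, hpf, mul_one]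
    _ ≤ (∏ w : InfinitePlace K, (⨆ i : Fin 3, w (![a, b, c] i)) ^ w.mult) *
          ∏ v ∈ S, ⨆ i : Fin 3, v (![a, b, c] i) :=
        mul_le_mul hinf hfin (by positivity) (hI0.trans hinf)
    _ = _ := by ring

/-- if `a + b + c = 0` then no term is smaller than another one at a finite place -/
theorem eq_of_sum_zero (v : FinitePlace K) {n : ℕ} (hn : 2 ≤ n)
    (hp : ∀ p : ℕ, p.Prime → p ∣ n → 5 ≤ p ∧ 2 * Module.finrank ℚ K ≤ p)
    {a b c : K} (hb : b ≠ 0) (hc : c ≠ 0) (h : a ^ n + b ^ n + c ^ n = 0)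
    (hs : a + b + c = 0) : v b ≤ v c := by
  by_contra hcon
  push Not at hcon
  have hd : 0 < Module.finrank ℚ K := Module.finrank_pos
  have hm : ∀ p : ℕ, p.Prime → p ∣ n → Module.finrank ℚ K + 1 < p := by
    intro p hpp hpn
    have := hp p hpp hpn
    omega
  have hodd : Odd n := odd_of_big hd hm
  have hvb : 0 < v b := FinitePlace.pos_iff.mpr hb
  have hvc : 0 < v c := FinitePlace.pos_iff.mpr hc
  set t : K := c / b with ht
  have ht0 : t ≠ 0 := div_ne_zero hc hb
  have hvt0 : 0 < v t := FinitePlace.pos_iff.mpr ht0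
  have hvt1 : v t < 1 := by
    rw [ht, map_div₀, div_lt_one hvb]
    exact hcon
  have h3 : (1 + t) ^ n - 1 = t ^ n := by
    have h4 : 1 + t = -(a / b) := by
      rw [ht]
      field_simp
      linear_combination hs
    rw [h4, hodd.neg_pow, ht, div_pow, div_pow]
    have hbn : b ^ n ≠ 0 := pow_ne_zero n hb
    field_simp
    linear_combination -h
  have h5 : ∀ p : ℕ, p.Prime → p ∣ n → v t ^ (p - 1) < v (p : K) := by
    intro p hpp hpm
    have hpR : (1 : ℝ) < p := by exact_mod_cast hpp.one_lt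
    have hnp := hm p hpp hpm
    rcases (natCast_le_one v p).lt_or_eq with h6 | h6
    · have h7 := nrm_ge v hpp h6
      have h8 : v t ≤ ((p : ℕ) : ℝ)⁻¹ := (le_inv_nrm v hvt1).trans (by
        apply inv_anti₀ (by positivity)
        exact_mod_cast h7)
      calc v t ^ (p - 1) ≤ (((p : ℕ) : ℝ)⁻¹) ^ (p - 1) := pow_le_pow_left₀ hvt0.le h8 _
        _ = ((p : ℝ) ^ (p - 1))⁻¹ := by rw [inv_pow]
        _ < ((p : ℝ) ^ Module.finrank ℚ K)⁻¹ := by
            apply inv_strictAnti₀ (by positivity)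
            exact pow_lt_pow_right₀ hpR (by omega)
        _ ≤ v (p : K) := prime_ge v hpp.pos
    · rw [h6]
      exact pow_lt_one₀ hvt0.le hvt1 (by have := hpp.two_le; omega)
  have h6 := one_add_pow_gen v n t hvt1 (by omega) h5
  rw [h3, map_pow] at h6
  -- `v t ^ (n - 1) = v n`
  have h7 : v t ^ (n - 1) = v (n : K) := by
    have e : v t ^ n = v t ^ (n - 1) * v t := by
      rw [← pow_succ]
      congr 1
      omega
    rw [e] at h6
    exact mul_right_cancel₀ hvt0.ne' h6
  rcases (natCast_le_one v n).lt_or_eq with h8 | h8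
  · obtain ⟨p, hpp, hpm, hvp⟩ := exists_prime_of_lt v n (by omega) h8
    have h9 := nrm_ge v hpp hvp
    have h9' : n.minFac ≤ nrm v := (Nat.minFac_le_of_dvd hpp.two_le hpm).trans h9
    have hmf := hp _ (Nat.minFac_prime (by omega : n ≠ 1)) (Nat.minFac_dvd n)
    have hlpos : (0 : ℝ) < n.minFac := by exact_mod_cast (by omega : 0 < n.minFac)
    have h10 : v t ≤ ((n.minFac : ℕ) : ℝ)⁻¹ := (le_inv_nrm v hvt1).trans (by
      apply inv_anti₀ hlpos
      exact_mod_cast h9')
    have hge := prime_ge v (p := n) (by omega)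
    have h11 : ((n : ℝ) ^ Module.finrank ℚ K)⁻¹ ≤ ((n.minFac : ℝ) ^ (n - 1))⁻¹ := by
      calc ((n : ℝ) ^ Module.finrank ℚ K)⁻¹ ≤ v (n : K) := hge
        _ = v t ^ (n - 1) := h7.symm
        _ ≤ (((n.minFac : ℕ) : ℝ)⁻¹) ^ (n - 1) := pow_le_pow_left₀ hvt0.le h10 _
        _ = _ := by rw [inv_pow]
    have hnR : (0 : ℝ) < n := by exact_mod_cast (by omega : 0 < n)
    have h12 : (n.minFac : ℝ) ^ (n - 1) ≤ (n : ℝ) ^ Module.finrank ℚ K :=
      (inv_le_inv₀ (by positivity) (by positivity)).1 h11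
    have h13 : n.minFac ^ (n - 1) ≤ n ^ Module.finrank ℚ K := by exact_mod_cast h12
    have h14 := pow_bound (d := Module.finrank ℚ K) (l := n.minFac) (n := n) (by omega) hmf.2
      (by omega) (Nat.minFac_dvd n)
    have h15 : n.minFac < 2 ^ n := (Nat.minFac_le (by omega)).trans_lt Nat.lt_two_pow_self
    have h16 : n.minFac ^ n = n.minFac ^ (n - 1) * n.minFac := by
      rw [← pow_succ]
      congr 1
      omega
    have h17 : 0 < n.minFac ^ (n - 1) := Nat.pow_pos (by omega)
    have h18 : n.minFac ^ (n - 1) * n.minFac < n.minFac ^ (n - 1) * 2 ^ n :=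
      Nat.mul_lt_mul_of_pos_left h15 h17
    have h19 : 2 ^ n * n.minFac ^ (n - 1) ≤ 2 ^ n * n ^ Module.finrank ℚ K :=
      Nat.mul_le_mul_left _ h13
    rw [h16] at h14
    nlinarith
  · rw [h8] at h7
    have := pow_lt_one₀ hvt0.le hvt1 (by omega : n - 1 ≠ 0)
    linarith

/-- solutions with `a + b + c = 0` come from the unit equation -/
theorem unit_of_sum_zero {n : ℕ} (hn : 2 ≤ n)
    (hp : ∀ p : ℕ, p.Prime → p ∣ n → 5 ≤ p ∧ 2 * Module.finrank ℚ K ≤ p)
    {a b c : K} (ha : a ≠ 0) (hb : b ≠ 0) (hc : c ≠ 0) (h : a ^ n + b ^ n + c ^ n = 0)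
    (hs : a + b + c = 0) :
    UP (a / b) ∧ (a / b + 1) ^ n = (a / b) ^ n + 1 := by
  have hd : 0 < Module.finrank ℚ K := Module.finrank_pos
  have hodd : Odd n := odd_of_big hd (fun p hpp hpn => by
    have := hp p hpp hpn
    omega)
  have e1 : a + b = -c := by linear_combination hs
  have e4 : a / b + 1 = -c / b := by
    rw [← e1]
    field_simp
  have key : ∀ v : FinitePlace K, v a = v b ∧ v b = v c := by
    intro v
    have h1 := eq_of_sum_zero v hn hp hb hc h hs
    have h2 := eq_of_sum_zero v (a := b) (b := c) (c := a) hn hp hc ha (by linear_combination h)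
      (by linear_combination hs)
    have h3 := eq_of_sum_zero v (a := c) (b := a) (c := b) hn hp ha hb (by linear_combination h)
      (by linear_combination hs)
    constructor <;> linarith
  refine ⟨⟨div_ne_zero ha hb, ?_, fun v => ⟨?_, ?_⟩⟩, ?_⟩
  · rw [e4]
    exact div_ne_zero (neg_ne_zero.2 hc) hb
  · rw [map_div₀, (key v).1, div_self]
    exact (FinitePlace.pos_iff.mpr hb).ne'
  · rw [e4, map_div₀, map_neg_eq_map, (key v).2, div_self]
    exact (FinitePlace.pos_iff.mpr hc).ne'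
  · rw [e4, div_pow, div_pow, hodd.neg_pow]
    have hbn : b ^ n ≠ 0 := pow_ne_zero n hb
    field_simp
    linear_combination -h

/-- the solution is `(ω, 1, ω ^ 2)` up to a factor -/
theorem trivial_of {a b c : K} (hb : b ≠ 0) (hs : a + b + c = 0)
    (h3 : (a / b) ^ 2 + a / b + 1 = 0) :
    ∃ z : K, z ^ 2 + z + 1 = 0 ∧ a = z * b ∧ c = z ^ 2 * b := by
  refine ⟨a / b, h3, by field_simp, ?_⟩
  have e : (a / b) ^ 2 = -(a / b) - 1 := by linear_combination h3
  rw [e]
  field_simp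
  linear_combination hs

/-- few exponents with solutions with `a + b + c = 0`, for every field of degree `d` -/
theorem partC (d : ℕ) : ∃ N : ℕ, ∀ (K : Type) [Field K] [NumberField K],
    Module.finrank ℚ K = d → ∀ F : Finset ℕ,
    (∀ n ∈ F, 2 ≤ n ∧ (∀ p : ℕ, p.Prime → p ∣ n → 5 ≤ p ∧ 2 * d ≤ p) ∧
      ∃ a b c : K, a ≠ 0 ∧ b ≠ 0 ∧ c ≠ 0 ∧ a ^ n + b ^ n + c ^ n = 0 ∧ a + b + c = 0 ∧
        ¬ ∃ z : K, z ^ 2 + z + 1 = 0 ∧ a = z * b ∧ c = z ^ 2 * b) → F.card ≤ N := by
  obtain ⟨N, hN⟩ := few_units d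
  refine ⟨N * N, fun K _ _ hd F hF => few_all (hN K hd) F fun n hn => ?_⟩
  obtain ⟨h2, hp, a, b, c, ha, hb, hc, h, hs, hno⟩ := hF n hn
  obtain ⟨h3, h4⟩ := unit_of_sum_zero h2 (by rw [hd]; exact hp) ha hb hc h hs
  exact ⟨a / b, h3, fun h5 => hno (trivial_of hb hs h5), h4⟩

end Pool.Agent.R803.UE
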