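import Pool.Agent.R803.UE2
import Pool.Agent.R623.AF.Fin

/-!
# Lower bounds for the solutions of Fermat's equation over fields without a cube root of unity
-/

set_option autoImplicit false

namespace Pool.Agent.R803.UE

open NumberField IsDedekindDomain Height Pool.Agent.W7.FH

variable {K : Type} [Field K] [NumberField K]

theorem mk_lt_one (v : HeightOneSpectrum (𝓞 K)) {x : K} (h : v.valuation K x < 1) :
    FinitePlace.mk v x < 1 := by
  rw [FinitePlace.mk_apply, FinitePlace.norm_embedding, HeightOneSpectrum.adicAbv_def]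
  have h3 : WithZeroMulInt.toNNReal (HeightOneSpectrum.absNorm_ne_zero v) (v.valuation K x) < 1 :=
    (WithZeroMulInt.toNNReal_lt_one_iff (HeightOneSpectrum.one_lt_absNorm_nnreal v)).2 h
  exact_mod_cast h3

/-- the height is at least the norm of a prime where the last coordinate is small -/
theorem norm_le_height (v : HeightOneSpectrum (𝓞 K)) {a b c : K} (ha : a ≠ 0) (hb : b ≠ 0)
    (hc : c ≠ 0) (h : v.valuation K c < v.valuation K a) :
    (Ideal.absNorm v.asIdeal : ℝ) ≤ mulHeight ![a, b, c] := by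
  apply height_ge_coord ha hb hc (FinitePlace.mk v) (Nat.cast_nonneg _)
  have h1 : v.valuation K (c / a) < 1 := by
    rw [map_div₀]
    exact (div_lt_one₀ (zero_lt_iff.2 ((Valuation.ne_zero_iff _).mpr ha))).2 h
  have h2 := le_inv_nrm _ (mk_lt_one v h1)
  have h3 : nrm (FinitePlace.mk v) = Ideal.absNorm v.asIdeal := by
    unfold nrm
    rw [FinitePlace.maximalIdeal_mk]
  rw [h3, map_div₀, div_le_iff₀ (FinitePlace.pos_iff.mpr ha)] at h2
  have hN : (0 : ℝ) < Ideal.absNorm v.asIdeal := by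
    have := HeightOneSpectrum.one_lt_absNorm v
    exact_mod_cast (by omega : 0 < Ideal.absNorm v.asIdeal)
  refine le_trans ?_ (le_max_of_le_left (le_max_left _ _))
  calc (Ideal.absNorm v.asIdeal : ℝ) * FinitePlace.mk v c
      ≤ (Ideal.absNorm v.asIdeal : ℝ) * ((Ideal.absNorm v.asIdeal : ℝ)⁻¹ * FinitePlace.mk v a) :=
        mul_le_mul_of_nonneg_left h2 hN.le
    _ = FinitePlace.mk v a := by rw [← mul_assoc, mul_inv_cancel₀ hN.ne', one_mul]

theorem partA (d : ℕ) : ∃ B : ℕ, ∀ (K : Type) [Field K] [NumberField K],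
    Module.finrank ℚ K = d → (∀ z : K, z ^ 2 + z + 1 ≠ 0) → ∀ p : ℕ, p.Prime → B < p →
    ∀ a b c : K, a ≠ 0 → b ≠ 0 → c ≠ 0 → a ^ p + b ^ p + c ^ p = 0 →
    (p : ℝ) + 1 ≤ mulHeight ![a, b, c] ∧
      (¬ (p : ℤ) ∣ discr K → ((p : ℝ) / 3) ^ d ≤ mulHeight ![a, b, c]) := by
  obtain ⟨B, hB⟩ := Pool.Agent.R623.AF.exists_prime d
  refine ⟨B + 4 * d ^ 2 + 5, ?_⟩
  intro K _ _ hd hK p hp hBp a b c ha hb hc h
  obtain ⟨v, h1, h2, h3, h4, h5⟩ := hB K hd hK p hp (by omega) a b c ha hb hc h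
  constructor
  · refine le_trans ?_ (norm_le_height v ha hb hc h5)
    exact_mod_cast h2
  · intro hdisc
    rw [← hd]
    apply grunert_main hp (by omega) (by rw [hd]; omega) hdisc ha hb hc h
    intro hs
    have e : (a + b) / c = -1 := by
      rw [div_eq_iff hc]
      linear_combination hs
    rw [e, Valuation.map_neg, map_one] at h3
    exact lt_irrefl _ h3

/-- the exponents with exceptional solutions with `a + b + c = 0` -/
def Exc (K : Type) [Field K] [NumberField K] : Set ℕ :=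
  {n | 2 ≤ n ∧ (∀ p : ℕ, p.Prime → p ∣ n → 5 ≤ p ∧ 2 * Module.finrank ℚ K ≤ p) ∧
    ∃ a b c : K, a ≠ 0 ∧ b ≠ 0 ∧ c ≠ 0 ∧ a ^ n + b ^ n + c ^ n = 0 ∧ a + b + c = 0 ∧
      ¬ ∃ z : K, z ^ 2 + z + 1 = 0 ∧ a = z * b ∧ c = z ^ 2 * b}

theorem partB (d : ℕ) : ∃ N : ℕ, ∀ (K : Type) [Field K] [NumberField K],
    Module.finrank ℚ K = d → ∃ P : Finset ℕ, P.card ≤ N ∧
    (∀ n : ℕ, 2 ≤ n → (∀ p : ℕ, p.Prime → p ∣ n → 5 ≤ p ∧ 2 * d ≤ p) → n ∉ P →
      ∀ a b c : K, a ≠ 0 → b ≠ 0 → c ≠ 0 → a ^ n + b ^ n + c ^ n = 0 → a + b + c = 0 →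
        ∃ z : K, z ^ 2 + z + 1 = 0 ∧ a = z * b ∧ c = z ^ 2 * b) ∧
    (∀ p : ℕ, p.Prime → 5 ≤ p → 4 * d ^ 2 ≤ p → ¬ (p : ℤ) ∣ discr K → p ∉ P →
      ∀ a b c : K, a ≠ 0 → b ≠ 0 → c ≠ 0 → a ^ p + b ^ p + c ^ p = 0 →
        (∃ z : K, z ^ 2 + z + 1 = 0 ∧ a = z * b ∧ c = z ^ 2 * b) ∨
          ((p : ℝ) / 3) ^ d ≤ mulHeight ![a, b, c]) := by
  obtain ⟨N, hN⟩ := partC d
  refine ⟨N, fun K _ _ hd => ?_⟩
  have hfin : ∀ F : Finset ℕ, (F : Set ℕ) ⊆ Exc K → F.card ≤ N := by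
    intro F hF
    apply hN K hd F
    intro n hn
    obtain ⟨h1, h2, h3⟩ := hF (Finset.mem_coe.2 hn)
    rw [hd] at h2
    exact ⟨h1, h2, h3⟩
  have hf : (Exc K).Finite := by
    by_contra hinf
    obtain ⟨F, hF, hc⟩ := Set.Infinite.exists_subset_card_eq hinf (N + 1)
    have := hfin F hF
    omega
  have hP1 : ∀ n : ℕ, 2 ≤ n → (∀ p : ℕ, p.Prime → p ∣ n → 5 ≤ p ∧ 2 * d ≤ p) →
      n ∉ hf.toFinset →
      ∀ a b c : K, a ≠ 0 → b ≠ 0 → c ≠ 0 → a ^ n + b ^ n + c ^ n = 0 → a + b + c = 0 →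
        ∃ z : K, z ^ 2 + z + 1 = 0 ∧ a = z * b ∧ c = z ^ 2 * b := by
    intro n h2 hp hn a b c ha hb hc h hs
    by_contra hno
    apply hn
    rw [Set.Finite.mem_toFinset]
    exact ⟨h2, by rw [hd]; exact hp, a, b, c, ha, hb, hc, h, hs, hno⟩
  refine ⟨hf.toFinset, hfin _ (by rw [Set.Finite.coe_toFinset]), hP1, ?_⟩
  intro p hp h5 hpd hdisc hpP a b c ha hb hc h
  by_cases hs : a + b + c = 0
  · left
    refine hP1 p hp.two_le (fun q hq hqp => ?_) hpP a b c ha hb hc h hs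
    rw [(Nat.prime_dvd_prime_iff_eq hq hp).mp hqp]
    refine ⟨h5, ?_⟩
    rcases Nat.eq_zero_or_pos d with rfl | hd0
    · omega
    · nlinarith
  · right
    rw [← hd]
    exact grunert_main hp h5 (by rw [hd]; exact hpd) hdisc ha hb hc h hs

end Pool.Agent.R803.UE
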